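import Mathlib

/-!
# Points of the double octic `v² = xyzt(x+y)(y+z)(z+t)(t+x)` over `𝔽_p` modulo `p`
-/

set_option autoImplicit false

namespace H594.CY

open Polynomial

/-- the solutions `(x, y, z, t, v)` of `d v² = x y z t (x + y) (y + z) (z + t) (t + x)` over
`ℤ/p` -/
def Sol (p : ℕ) (d : ℤ) : Type :=
  {P : ZMod p × ZMod p × ZMod p × ZMod p × ZMod p //
    (d : ZMod p) * P.2.2.2.2 ^ 2 = P.1 * P.2.1 * P.2.2.1 * P.2.2.2.1 * (P.1 + P.2.1) * (P.2.1 + P.2.2.1) *
      (P.2.2.1 + P.2.2.2.1) * (P.2.2.2.1 + P.1)}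

section Field

variable (p : ℕ) [hp : Fact p.Prime]

/-- power sums -/
lemma sum_pow' (i : ℕ) : ∑ x : ZMod p, x ^ i = if i ≠ 0 ∧ (p - 1) ∣ i then -1 else 0 := by
  split_ifs with h
  · obtain ⟨h0, k, rfl⟩ := h
    have h1 : ∀ x : ZMod p, x ^ ((p - 1) * k) = if x = 0 then 0 else 1 := by
      intro x
      split_ifs with hx
      · rw [hx, zero_pow h0]
      · rw [pow_mul, ZMod.pow_card_sub_one_eq_one hx, one_pow]
    rw [Finset.sum_congr rfl fun x _ => h1 x, Finset.sum_ite, Finset.sum_const_zero, zero_add,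
      Finset.sum_const, nsmul_eq_mul, mul_one, Finset.filter_ne', Finset.card_erase_of_mem
      (Finset.mem_univ _), Finset.card_univ, ZMod.card, Nat.cast_sub hp.out.one_le]
    simp
  · have h := FiniteField.sum_pow_lt_card_sub_one (K := ZMod p)
    rw [ZMod.card] at h
    rcases Nat.eq_zero_or_pos i with rfl | hi
    · simp
    · have hnd : ¬ (p - 1) ∣ i := fun hd => by
        rename_i h'
        exact h' ⟨by omega, hd⟩
      have hp1 : 0 < p - 1 := by
        rcases Nat.eq_zero_or_pos (p - 1) with h0 | h0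
        · exact absurd (by rw [h0]; have := hp.out.two_le; omega) hnd
        · exact h0
      have hr : i % (p - 1) ≠ 0 := fun h0 => hnd (Nat.dvd_of_mod_eq_zero h0)
      rw [← h (i % (p - 1)) (Nat.mod_lt _ hp1)]
      refine Finset.sum_congr rfl fun x _ => ?_
      rcases eq_or_ne x 0 with rfl | hx
      · rw [zero_pow (by omega), zero_pow hr]
      · conv_lhs => rw [← Nat.div_add_mod i (p - 1)]
        rw [pow_add, pow_mul, ZMod.pow_card_sub_one_eq_one hx, one_pow, one_mul]

/-- sums of values of polynomials of small degree -/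
lemma sum_eval (Q : (ZMod p)[X]) (hQ : Q.natDegree < 3 * (p - 1)) :
    ∑ x : ZMod p, Q.eval x = - Q.coeff (p - 1) - Q.coeff (2 * (p - 1)) := by
  have hp2 := hp.out.two_le
  have h1 : ∀ x : ZMod p, Q.eval x = ∑ i ∈ Finset.range (3 * (p - 1)), Q.coeff i * x ^ i :=
    fun x => eval_eq_sum_range' hQ x
  rw [Finset.sum_congr rfl fun x _ => h1 x, Finset.sum_comm]
  have h2 : ∀ i ∈ Finset.range (3 * (p - 1)), ∑ x : ZMod p, Q.coeff i * x ^ i =
      if i = p - 1 then - Q.coeff (p - 1) else if i = 2 * (p - 1) then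
        - Q.coeff (2 * (p - 1)) else 0 := by
    intro i hi
    rw [Finset.mem_range] at hi
    rw [← Finset.mul_sum, sum_pow']
    by_cases h : i ≠ 0 ∧ (p - 1) ∣ i
    · rw [if_pos h]
      obtain ⟨h0, k, rfl⟩ := h
      have hk : k = 1 ∨ k = 2 := by
        have : k < 3 := by
          by_contra hk
          have : 3 * (p - 1) ≤ (p - 1) * k := by
            rw [mul_comm (p - 1)]; exact Nat.mul_le_mul_right _ (by omega)
          omega
        have : k ≠ 0 := fun h => h0 (by rw [h, mul_zero])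
        omega
      rcases hk with rfl | rfl
      · rw [mul_one, if_pos rfl]; ring
      · rw [if_neg (by omega), if_pos (by ring), mul_comm (p - 1) 2]; ring
    · rw [if_neg h, if_neg, if_neg, mul_zero]
      · rintro rfl; exact h ⟨by omega, dvd_mul_left _ _⟩
      · rintro rfl; exact h ⟨by omega, dvd_rfl⟩
  rw [Finset.sum_congr rfl h2]
  have h3 : ∀ i, (if i = p - 1 then - Q.coeff (p - 1) else if i = 2 * (p - 1) then
        - Q.coeff (2 * (p - 1)) else 0) = (if i = p - 1 then - Q.coeff (p - 1) else 0) +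
        (if i = 2 * (p - 1) then - Q.coeff (2 * (p - 1)) else 0) := by
    intro i
    split_ifs with h1 h2
    · omega
    · simp
    · simp
    · simp
  rw [Finset.sum_congr rfl fun i _ => h3 i, Finset.sum_add_distrib, Finset.sum_ite_eq',
    Finset.sum_ite_eq', if_pos (Finset.mem_range.mpr (by omega)),
    if_pos (Finset.mem_range.mpr (by omega))]
  ring

/-- the number of square roots modulo `p` -/
lemma card_sqrt (hp2 : p ≠ 2) (a : ZMod p) :
    ((Finset.univ.filter fun v : ZMod p => v ^ 2 = a).card : ZMod p) = 1 + a ^ (p / 2) := by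
  have hc : ringChar (ZMod p) ≠ 2 := by rwa [ZMod.ringChar_zmod_n]
  have h1 := quadraticChar_card_sqrts hc a
  have h2 := quadraticChar_eq_pow_of_char_ne_two' hc a
  rw [ZMod.card] at h2
  have h3 : ((Finset.univ.filter fun v : ZMod p => v ^ 2 = a).card : ℤ) =
      quadraticChar (ZMod p) a + 1 := by
    rw [← h1]
    congr 2
    ext v
    simp
  have h4 := congrArg (Int.cast (R := ZMod p)) h3
  push_cast at h4
  rw [h4, h2]
  ring

/-- the number of solutions of `d v² = a` -/
lemma card_sqrt_twist (hp2 : p ≠ 2) (d a : ZMod p) (hd : d ≠ 0) :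
    ((Finset.univ.filter fun v : ZMod p => d * v ^ 2 = a).card : ZMod p) =
      1 + d ^ (p / 2) * a ^ (p / 2) := by
  rw [← mul_pow, ← card_sqrt p hp2 (d * a)]
  congr 1
  refine Finset.card_bij (fun v _ => d * v) ?_ ?_ ?_
  · intro v hv
    rw [Finset.mem_filter] at hv ⊢
    exact ⟨Finset.mem_univ _, by rw [← hv.2]; ring⟩
  · intro v _ v' _ h
    exact mul_left_cancel₀ hd h
  · intro v hv
    rw [Finset.mem_filter] at hv
    refine ⟨d⁻¹ * v, ?_, ?_⟩
    · rw [Finset.mem_filter]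
      refine ⟨Finset.mem_univ _, ?_⟩
      have := hv.2
      field_simp
      rw [this]
    · field_simp

/-- `L(s) = ∑ (Y (Y - 1) (Y - s))^n` -/
noncomputable def LL (s : ZMod p) : ZMod p := ∑ y : ZMod p, (y * (y - 1) * (y - s)) ^ (p / 2)

/-- `H(s) = ∑ binom(n,k)² s^k` -/
noncomputable def HH : (ZMod p)[X] :=
  ∑ k ∈ Finset.range (p / 2 + 1), C ((Nat.choose (p / 2) k : ZMod p) ^ 2) * X ^ k

lemma two_half (hp2 : p ≠ 2) : 2 * (p / 2) = p - 1 := by
  have := hp.out.eq_two_or_odd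
  omega

lemma LL_eq (hp2 : p ≠ 2) (s : ZMod p) : LL p s = -(-1) ^ (p / 2) * (HH p).eval s := by
  have hn := two_half p hp2
  have hp3 : 3 ≤ p := by have := hp.out.two_le; omega
  set n := p / 2 with hn'
  -- the polynomial in `Y`
  set Q : (ZMod p)[X] := (X * (X - 1) * (X - C s)) ^ n with hQ
  have hdeg : Q.natDegree ≤ 3 * n := by
    have h0 : (X * (X - 1) * (X - C s) : (ZMod p)[X]).natDegree ≤ 3 := by compute_degree
    rw [hQ, mul_comm 3 n]
    exact natDegree_pow_le_of_le n h0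
  have h1 : LL p s = ∑ x : ZMod p, Q.eval x := by
    refine Finset.sum_congr rfl fun x _ => ?_
    simp [hQ, hn']
  rw [h1, sum_eval p Q (by omega)]
  have h2 : Q.coeff (2 * (p - 1)) = 0 := coeff_eq_zero_of_natDegree_lt (by omega)
  have h3 : Q = X ^ n * ((X - 1) ^ n * (X - C s) ^ n) := by
    rw [hQ, mul_assoc, mul_pow, mul_pow]
  have h4 : Q.coeff (p - 1) = ((X - 1 : (ZMod p)[X]) ^ n * (X - C s) ^ n).coeff n := by
    rw [h3, coeff_X_pow_mul', if_pos (by omega)]
    congr 1
    omega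
  rw [h2, h4, coeff_mul, Finset.Nat.sum_antidiagonal_eq_sum_range_succ_mk, HH, eval_finsetSum,
    Finset.mul_sum, sub_zero, ← Finset.sum_neg_distrib]
  have h5 : ∀ k ∈ Finset.range (n + 1), -(((X - 1 : (ZMod p)[X]) ^ n).coeff k *
      ((X - C s) ^ n).coeff (n - k)) =
      -(-1) ^ n * (C ((Nat.choose n k : ZMod p) ^ 2) * X ^ k).eval s := by
    intro k hk
    rw [Finset.mem_range] at hk
    have e1 : (X - 1 : (ZMod p)[X]) = X + C (-1) := by rw [C_neg, C_1]; ring
    have e2 : (X - C s : (ZMod p)[X]) = X + C (-s) := by rw [C_neg]; ring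
    rw [e1, e2, coeff_X_add_C_pow, coeff_X_add_C_pow, Nat.choose_symm (by omega : k ≤ n),
      eval_mul, eval_C, eval_pow, eval_X, show n - (n - k) = k by omega]
    have e3 : (-s) ^ k = (-1) ^ k * s ^ k := by rw [← mul_pow]; ring
    have e4 : (-1 : ZMod p) ^ (n - k) * (-1) ^ k = (-1) ^ n := by
      rw [← pow_add]; congr 1; omega
    rw [e3, ← e4]
    ring
  exact Finset.sum_congr rfl h5

lemma LL_sq (hp2 : p ≠ 2) (s : ZMod p) : (LL p s) ^ 2 = ((HH p).eval s) ^ 2 := by
  rw [LL_eq p hp2, mul_pow, neg_sq, ← pow_mul, mul_comm (p / 2) 2, pow_mul]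
  simp

lemma LL_symm (s : ZMod p) : (LL p (1 - s)) ^ 2 = (LL p s) ^ 2 := by
  have h1 : LL p s = (-1) ^ (p / 2) * LL p (1 - s) := by
    rw [LL, LL, Finset.mul_sum]
    refine Fintype.sum_equiv (Equiv.subLeft 1) _ _ fun y => ?_
    rw [Equiv.subLeft_apply, ← mul_pow]
    congr 1
    ring
  rw [h1, mul_pow, ← pow_mul, mul_comm (p / 2) 2, pow_mul]
  simp

/-- the number of solutions modulo `p` -/
lemma card_Sol (hp2 : p ≠ 2) (d : ℤ) (hd : (d : ZMod p) ≠ 0) :
    (Nat.card (Sol p d) : ZMod p) =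
      (d : ZMod p) ^ (p / 2) * (- ∑ s : ZMod p, s ^ (p / 2) * (LL p s) ^ 2) := by
  have hn := two_half p hp2
  have hp3 : 3 ≤ p := by have := hp.out.two_le; omega
  set n := p / 2 with hn'
  have hn0 : n ≠ 0 := by omega
  -- step 1
  have h1 : (Nat.card (Sol p d) : ZMod p) = (d : ZMod p) ^ n * ∑ x : ZMod p, ∑ y : ZMod p,
      ∑ z : ZMod p, ∑ t : ZMod p,
        (x * y * z * t * (x + y) * (y + z) * (z + t) * (t + x)) ^ n := by
    have e1 : Nat.card (Sol p d) = ∑ x : ZMod p, ∑ y : ZMod p, ∑ z : ZMod p, ∑ t : ZMod p,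
        (Finset.univ.filter fun v : ZMod p =>
          (d : ZMod p) * v ^ 2 = x * y * z * t * (x + y) * (y + z) * (z + t) * (t + x)).card := by
      classical
      rw [Sol, Nat.card_eq_fintype_card, Fintype.card_subtype]
      simp only [Finset.card_filter]
      rw [Fintype.sum_prod_type]
      refine Finset.sum_congr rfl fun x _ => ?_
      rw [Fintype.sum_prod_type]
      refine Finset.sum_congr rfl fun y _ => ?_
      rw [Fintype.sum_prod_type]
      refine Finset.sum_congr rfl fun z _ => ?_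
      rw [Fintype.sum_prod_type]
    rw [e1]
    push_cast
    simp only [Finset.mul_sum]
    refine Finset.sum_congr rfl fun x _ => Finset.sum_congr rfl fun y _ =>
      Finset.sum_congr rfl fun z _ => ?_
    rw [Finset.sum_congr rfl fun t _ => card_sqrt_twist p hp2 _ _ hd, Finset.sum_add_distrib]
    simp [hn']
  -- step 2
  have h2 : ∀ x z : ZMod p, ∑ y : ZMod p, ∑ t : ZMod p,
      (x * y * z * t * (x + y) * (y + z) * (z + t) * (t + x)) ^ n =
      (x * z) ^ n * (∑ y : ZMod p, (y * (x + y) * (y + z)) ^ n) ^ 2 := by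
    intro x z
    rw [sq, Finset.sum_mul_sum, Finset.mul_sum]
    refine Finset.sum_congr rfl fun y _ => ?_
    rw [Finset.mul_sum]
    refine Finset.sum_congr rfl fun t _ => ?_
    rw [← mul_pow, ← mul_pow]
    congr 1
    ring
  -- step 3
  have h3 : ∀ x : ZMod p, x ≠ 0 → ∀ s, ∑ y : ZMod p, (y * (x + y) * (y + x * s)) ^ n =
      x ^ (3 * n) * (-1) ^ n * LL p s := by
    intro x hx s
    have e1 : ∑ y : ZMod p, (y * (x + y) * (y + x * s)) ^ n =
        ∑ y : ZMod p, (-1) ^ n * x ^ (3 * n) * (y * (y - 1) * (y - s)) ^ n := by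
      symm
      refine Fintype.sum_equiv (Equiv.mulLeft₀ (-x) (neg_ne_zero.mpr hx)) _ _ fun y => ?_
      rw [Equiv.mulLeft₀_apply]
      rw [mul_comm 3 n, mul_comm n 3, pow_mul, ← mul_pow, ← mul_pow]
      congr 1
      ring
    rw [e1, ← Finset.mul_sum, LL]
    ring
  have h4 : ∀ x : ZMod p, ∑ z : ZMod p, (x * z) ^ n *
      (∑ y : ZMod p, (y * (x + y) * (y + z)) ^ n) ^ 2 =
      if x = 0 then 0 else ∑ s : ZMod p, s ^ n * (LL p s) ^ 2 := by
    intro x
    split_ifs with hx
    · subst hx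
      simp [zero_pow hn0]
    · symm
      refine Fintype.sum_equiv (Equiv.mulLeft₀ x hx) _ _ fun s => ?_
      rw [Equiv.mulLeft₀_apply, h3 x hx s]
      have hx1 : x ^ (2 * n) = 1 := by rw [hn]; exact ZMod.pow_card_sub_one_eq_one hx
      have e2 : (x * (x * s)) ^ n * (x ^ (3 * n) * (-1) ^ n * LL p s) ^ 2 =
          (x ^ (2 * n)) ^ 4 * ((-1) ^ n) ^ 2 * (s ^ n * LL p s ^ 2) := by
        have : x * (x * s) = x ^ 2 * s := by ring
        rw [this, mul_pow, ← pow_mul, mul_pow, mul_pow]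
        ring
      rw [e2, hx1, one_pow, ← pow_mul, mul_comm n 2, pow_mul]
      simp
  have h5 : ∀ x y : ZMod p, (∑ z : ZMod p, ∑ t : ZMod p,
      (x * y * z * t * (x + y) * (y + z) * (z + t) * (t + x)) ^ n) =
      ∑ z : ZMod p, ∑ t : ZMod p,
      (x * y * z * t * (x + y) * (y + z) * (z + t) * (t + x)) ^ n := fun _ _ => rfl
  rw [h1]
  congr 1
  have h6 : ∀ x : ZMod p, ∑ y : ZMod p, ∑ z : ZMod p, ∑ t : ZMod p,
      (x * y * z * t * (x + y) * (y + z) * (z + t) * (t + x)) ^ n =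
      if x = 0 then 0 else ∑ s : ZMod p, s ^ n * (LL p s) ^ 2 := by
    intro x
    rw [Finset.sum_comm, ← h4 x]
    exact Finset.sum_congr rfl fun z _ => h2 x z
  rw [Finset.sum_congr rfl fun x _ => h6 x, Finset.sum_ite, Finset.sum_const_zero, zero_add,
    Finset.sum_const, nsmul_eq_mul, Finset.filter_ne', Finset.card_erase_of_mem
    (Finset.mem_univ _), Finset.card_univ, ZMod.card, Nat.cast_sub hp.out.one_le]
  simp

/-- the number of solutions is `± ∑ binom(n,k)^4` modulo `p`, `n = (p-1)/2` -/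
lemma card_Sol_choose (hp2 : p ≠ 2) (d : ℤ) (hd : (d : ZMod p) ≠ 0) :
    (Nat.card (Sol p d) : ZMod p) = (d : ZMod p) ^ (p / 2) *
      ((∑ k ∈ Finset.range (p / 2 + 1), Nat.choose (p / 2) k ^ 4 : ℕ) : ZMod p) := by
  have hn := two_half p hp2
  have hp3 : 3 ≤ p := by have := hp.out.two_le; omega
  rw [card_Sol p hp2 d hd]
  congr 1
  set n := p / 2 with hn'
  have hdeg : (HH p).natDegree ≤ n := by
    refine natDegree_sum_le_of_forall_le _ _ fun k hk => ?_
    rw [Finset.mem_range] at hk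
    exact (natDegree_C_mul_X_pow_le _ _).trans (by omega)
  have e1 : ∀ s : ZMod p, s ^ n * (LL p s) ^ 2 = (X ^ n * (HH p) ^ 2).eval s := fun s => by
    rw [LL_sq p hp2, eval_mul, eval_pow, eval_pow, eval_X]
  have hd1 : ((X : (ZMod p)[X]) ^ n * (HH p) ^ 2).natDegree ≤ 3 * n := by
    refine natDegree_mul_le.trans ?_
    have h1 := natDegree_pow_le_of_le 2 hdeg
    have h2 : ((X : (ZMod p)[X]) ^ n).natDegree ≤ n := natDegree_X_pow_le n
    omega
  rw [Finset.sum_congr rfl fun s _ => e1 s, sum_eval p _ (by omega)]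
  have e2 : ((X : (ZMod p)[X]) ^ n * (HH p) ^ 2).coeff (2 * (p - 1)) = 0 :=
    coeff_eq_zero_of_natDegree_lt (by omega)
  have e3 : ∀ k, k ≤ n → (HH p).coeff k = (Nat.choose n k : ZMod p) ^ 2 := by
    intro k hk
    rw [HH, finsetSum_coeff]
    simp only [coeff_C_mul_X_pow]
    rw [Finset.sum_ite_eq, if_pos (Finset.mem_range.mpr (by omega))]
  rw [e2, coeff_X_pow_mul', if_pos (by omega), show p - 1 - n = n by omega, sq, coeff_mul,
    Finset.Nat.sum_antidiagonal_eq_sum_range_succ_mk]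
  push_cast
  simp only [sub_zero, neg_neg]
  refine Finset.sum_congr rfl fun k hk => ?_
  rw [Finset.mem_range] at hk
  rw [e3 k (by omega), e3 (n - k) (by omega), Nat.choose_symm (by omega)]
  ring

end Field

end H594.CY
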