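import Pool.Agent.Run7.h594.CY.Expand

/-!
# If `p` divides the number of points then `p` divides the coefficients at multiples of `p`
-/

set_option autoImplicit false

namespace H594.CY

open Polynomial H809.OD H594.OD


/-- `R(u) = u (1 - 4u) (1 - 8u)` -/
noncomputable def RR : ℤ[X] := X * (1 - 4 * X) * (1 - 8 * X)

/-- the form of weight `4` is `w² θ u` -/
lemma form_eq (h : Theta) : w ^ (2 + 2) * aeval u RR = w ^ 2 * th u := by
  rw [h.th_u, RR]
  simp only [map_mul, map_sub, map_one, map_ofNat, aeval_X]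
  ring

/-- `(∑ binom(2k,k)² (u (1 - 4u))^k)²` over `ℤ` -/
noncomputable def BZ (p : ℕ) : ℤ[X] := ((gZ (p * p)).comp (X * (1 - 4 * X))) ^ 2

lemma gZ_map (m : ℕ) : (gZ m).map (Int.castRingHom ℚ) = gQ m := by
  rw [gZ, gQ, Polynomial.map_sum]
  refine Finset.sum_congr rfl fun k _ => ?_
  simp

lemma gZ_mod (p m : ℕ) [Fact p.Prime] : (gZ m).map (Int.castRingHom (ZMod p)) = gM p m := by
  rw [gZ, gM, Polynomial.map_sum]
  refine Finset.sum_congr rfl fun k _ => ?_
  simp

lemma BZ_map (p : ℕ) : (BZ p).map (Int.castRingHom ℚ) = ((gQ (p * p)).comp tp) ^ 2 := by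
  rw [BZ, Polynomial.map_pow, Polynomial.map_comp, gZ_map]
  congr 2
  simp [tp]

lemma BZ_mod (p : ℕ) [Fact p.Prime] : (BZ p).map (Int.castRingHom (ZMod p)) =
    ((gM p (p * p)).comp (X * (1 - 4 * X))) ^ 2 := by
  rw [BZ, Polynomial.map_pow, Polynomial.map_comp, gZ_mod]
  congr 2
  simp

lemma BZ_dvd (p : ℕ) [hp : Fact p.Prime] (hp2 : p ≠ 2) (hS : p ∣ Nat.card (Sol p 1)) (m : ℕ)
    (hm : 1 ≤ m) : (p : ℤ) ∣ (BZ p).coeff (p * m - 1) := by
  have h1 := coeff_zero_of p hp2 ((ZMod.natCast_eq_zero_iff _ _).mpr hS) m hm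
  rw [← BZ_mod, coeff_map] at h1
  exact (ZMod.intCast_zmod_eq_zero_iff_dvd _ _).mp h1

/-- the primitive of `B` -/
noncomputable def prim (B : ℚ[X]) : ℚ[X] :=
  ∑ j ∈ Finset.range (B.natDegree + 1), C (B.coeff j / ((j : ℚ) + 1)) * X ^ (j + 1)

lemma prim_der (B : ℚ[X]) : derivative (prim B) = B := by
  conv_rhs => rw [B.as_sum_range_C_mul_X_pow]
  rw [prim, derivative_sum]
  refine Finset.sum_congr rfl fun j _ => ?_
  rw [derivative_C_mul, derivative_X_pow, Nat.add_sub_cancel, ← mul_assoc, ← C_mul]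
  congr 2
  have : ((j : ℚ) + 1) ≠ 0 := by positivity
  push_cast
  field_simp

/-- `p`-integral rational numbers -/
def PIn (p : ℕ) (x : ℚ) : Prop := ∃ d : ℕ, ¬ p ∣ d ∧ ∃ z : ℤ, (d : ℚ) * x = z

lemma PIn_zero {p : ℕ} (hp : p.Prime) : PIn p 0 :=
  ⟨1, fun h => hp.one_lt.ne' (Nat.dvd_one.mp h), 0, by simp⟩

lemma PIn_add {p : ℕ} (hp : p.Prime) {x y : ℚ} (hx : PIn p x) (hy : PIn p y) : PIn p (x + y) := by
  obtain ⟨d, hd, z, hz⟩ := hx
  obtain ⟨e, he, t, ht⟩ := hy
  refine ⟨d * e, fun h => (hp.dvd_mul.mp h).elim hd he, z * e + t * d, ?_⟩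
  push_cast
  rw [← hz, ← ht]
  ring

lemma PIn_sum {p : ℕ} (hp : p.Prime) {ι : Type*} (s : Finset ι) (f : ι → ℚ)
    (hf : ∀ i ∈ s, PIn p (f i)) : PIn p (∑ i ∈ s, f i) := by
  classical
  induction s using Finset.induction_on with
  | empty => simpa using PIn_zero hp
  | insert a s ha ih =>
    rw [Finset.sum_insert ha]
    exact PIn_add hp (hf a (Finset.mem_insert_self _ _))
      (ih fun i hi => hf i (Finset.mem_insert_of_mem hi))

lemma X_pow_dvd_u_pow (h : Theta) (j : ℕ) : PowerSeries.X ^ j ∣ u ^ j :=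
  pow_dvd_pow_of_dvd (X_dvd_u h) j

theorem dvd_coeff (h : Theta) (p : ℕ) (hp : p.Prime) (hp2 : p ≠ 2)
    (hS : p ∣ Nat.card (Sol p 1)) (a : ℕ → ℤ)
    (ha : ∀ n, PowerSeries.coeff (R := ℚ) n (w ^ (2 + 2) * aeval u RR) = (a n : ℚ)) (n : ℕ) (hn : n < p ^ 2)
    (hpn : p ∣ n) : (p : ℤ) ∣ a n := by
  have : Fact p.Prime := ⟨hp⟩
  set B : ℚ[X] := (BZ p).map (Int.castRingHom ℚ) with hB
  have hpp : 0 < p * p := Nat.mul_pos hp.pos hp.pos
  obtain ⟨m, hm⟩ : ∃ m, p * p = m + 1 := ⟨p * p - 1, by omega⟩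
  -- `w² ≡ B(u)`
  have h1 : PowerSeries.X ^ (p * p) ∣ w ^ 2 - ev1 B := by
    have h2 := w_approx h m
    rw [← hm] at h2
    have h3 : w ^ 2 - ev1 B = (w - evt (gQ (p * p))) * (w + evt (gQ (p * p))) := by
      rw [hB, BZ_map, map_pow, evt]; ring
    rw [h3]
    exact Dvd.dvd.mul_right h2 _
  have h4 : th (ev1 (prim B)) = ev1 B * th u := by
    rw [ev1_apply, Derivation.map_aeval, prim_der, smul_eq_mul]; rfl
  have h5 : (a n : ℚ) = n * PowerSeries.coeff (R := ℚ) n (ev1 (prim B)) := by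
    rw [← ha n, form_eq h, ← coef_th, h4]
    have h6 : PowerSeries.X ^ (p * p) ∣ w ^ 2 * th u - ev1 B * th u := by
      rw [← sub_mul]; exact Dvd.dvd.mul_right h1 _
    have h7 := PowerSeries.X_pow_dvd_iff.mp h6 n (by rw [sq] at hn; exact hn)
    rw [map_sub, sub_eq_zero] at h7
    exact h7
  -- `p`-integrality
  have h8 : PIn p (PowerSeries.coeff (R := ℚ) n (ev1 (prim B))) := by
    have e1 : PowerSeries.coeff (R := ℚ) n (ev1 (prim B)) = ∑ j ∈ Finset.range (B.natDegree + 1),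
        (B.coeff j / ((j : ℚ) + 1)) * PowerSeries.coeff (R := ℚ) n (u ^ (j + 1)) := by
      rw [prim, map_sum, map_sum]
      refine Finset.sum_congr rfl fun j _ => ?_
      have e2 : ev1 (C (B.coeff j / ((j : ℚ) + 1))) =
          PowerSeries.C (B.coeff j / ((j : ℚ) + 1)) := by rw [ev1_apply, aeval_C]; rfl
      have e3 : ev1 (X : ℚ[X]) = u := by rw [ev1_apply, aeval_X]
      rw [map_mul, map_pow, e2, e3, PowerSeries.coeff_C_mul]
    rw [e1]
    refine PIn_sum hp _ _ fun j _ => ?_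
    rcases Nat.lt_or_ge n (j + 1) with hj | hj
    · have : PowerSeries.coeff (R := ℚ) n (u ^ (j + 1)) = 0 :=
        PowerSeries.X_pow_dvd_iff.mp (X_pow_dvd_u_pow h (j + 1)) n hj
      rw [this, mul_zero]
      exact PIn_zero hp
    · obtain ⟨c, hc⟩ : ∃ c : ℤ, PowerSeries.coeff (R := ℚ) n (u ^ (j + 1)) = c := by
        obtain ⟨g, hg⟩ := pow_mem h.u_int (j + 1)
        exact ⟨PowerSeries.coeff n g, by rw [← hg, PowerSeries.coeff_map]; rfl⟩
      have hBj : B.coeff j = ((BZ p).coeff j : ℚ) := by rw [hB, coeff_map]; rfl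
      have hj0 : ((j : ℚ) + 1) ≠ 0 := by positivity
      rw [hc, hBj]
      by_cases hd : p ∣ j + 1
      · obtain ⟨l, hl⟩ := hd
        have hl1 : 1 ≤ l := by
          rcases Nat.eq_zero_or_pos l with rfl | h0
          · omega
          · exact h0
        have hlp : l < p := by
          have h9 : p * l < p * p := by rw [← hl]; rw [sq] at hn; omega
          exact Nat.lt_of_mul_lt_mul_left h9
        have h10 := BZ_dvd p hp2 hS l hl1
        rw [← hl, Nat.add_sub_cancel] at h10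
        obtain ⟨b, hb⟩ := h10
        refine ⟨l, fun h11 => ?_, b * c, ?_⟩
        · have := Nat.le_of_dvd (by omega) h11
          omega
        · rw [hb]
          have h12 : ((j : ℚ) + 1) = p * l := by exact_mod_cast congrArg (Nat.cast (R := ℚ)) hl
          have hp0 : (p : ℚ) ≠ 0 := by exact_mod_cast hp.ne_zero
          have hl0 : (l : ℚ) ≠ 0 := by
            have : l ≠ 0 := by omega
            exact_mod_cast this
          rw [h12]
          push_cast
          field_simp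
      · refine ⟨j + 1, hd, (BZ p).coeff j * c, ?_⟩
        push_cast
        field_simp
  obtain ⟨d, hd, z, hz⟩ := h8
  have h9 : (d : ℤ) * a n = n * z := by
    have : (d : ℚ) * (a n : ℚ) = n * z := by rw [h5, ← hz]; ring
    exact_mod_cast this
  have h10 : (p : ℤ) ∣ (d : ℤ) * a n := by
    rw [h9]
    exact Dvd.dvd.mul_right (by exact_mod_cast hpn) _
  rcases (Nat.prime_iff_prime_int.mp hp).dvd_or_dvd h10 with h11 | h11
  · exact absurd (by exact_mod_cast h11) hd
  · exact h11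

/-- the form is odd -/
lemma even_zero (h : Theta) (a : ℕ → ℤ)
    (ha : ∀ n, PowerSeries.coeff (R := ℚ) n (w ^ (2 + 2) * aeval u RR) = (a n : ℚ)) (n : ℕ) (hn : Even n) : a n = 0 := by
  have h1 : ng (w ^ (2 + 2) * aeval u RR) = -(w ^ (2 + 2) * aeval u RR) := by
    rw [RR]
    simp only [map_mul, map_sub, map_one, map_ofNat, aeval_X, map_pow]
    rw [h.ng_w]
    have h2 := si_mul h
    have h3 : ng u = - u * si := by
      calc ng u = ng u * ((1 - 8 * u) * si) := by rw [h2, mul_one]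
        _ = (ng u * (1 - 8 * u)) * si := by ring
        _ = - u * si := by rw [h.ng_u]
    have h4 : (1 - 8 * u) * (1 - 4 * ng u) = 1 - 4 * u := by
      rw [h3]; linear_combination (4 * u) * h2
    have h5 : (1 - 8 * u) * (1 - 8 * ng u) = 1 := by
      rw [h3]; linear_combination (8 * u) * h2
    have h6 := h.ng_u
    calc (w * (1 - 8 * u)) ^ (2 + 2) * (ng u * (1 - 4 * ng u) * (1 - 8 * ng u))
        = w ^ 4 * (1 - 8 * u) * (ng u * (1 - 8 * u)) * ((1 - 8 * u) * (1 - 4 * ng u)) *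
            ((1 - 8 * u) * (1 - 8 * ng u)) := by ring
      _ = _ := by rw [h6, h4, h5]; ring
  have h2 := congrArg (PowerSeries.coeff (R := ℚ) n) h1
  rw [ng, PowerSeries.coeff_rescale, map_neg, ha, hn.neg_one_pow, one_mul] at h2
  have h3 : (a n : ℚ) = 0 := by linarith
  exact_mod_cast h3

end H594.CY
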