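import Pool.Agent.Run7.h594.CY.Count

/-!
# The Hasse invariant: coefficients of `(∑ binom(2k,k)² t^k)²`, `t = u (1 - 4u)`, modulo `p`
-/

set_option autoImplicit false

namespace H594.CY

open Polynomial

variable (p : ℕ) [hp : Fact p.Prime]

/-- `∑_{k < m} binom(2k,k)² X^k` modulo `p` -/
noncomputable def gM (m : ℕ) : (ZMod p)[X] :=
  ∑ k ∈ Finset.range m, C ((Nat.centralBinom k : ZMod p) ^ 2) * X ^ k

lemma central_lucas (a b : ℕ) (ha : a < p) :
    (Nat.centralBinom (a + p * b) : ZMod p) = Nat.centralBinom a * Nat.centralBinom b := by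
  have hp0 := hp.out.pos
  have h1 := Choose.choose_modEq_choose_mod_mul_choose_div_nat (n := 2 * (a + p * b))
    (k := a + p * b) (p := p)
  have h2 := (ZMod.natCast_eq_natCast_iff _ _ _).mpr h1
  rw [Nat.centralBinom, h2]
  have e1 : (a + p * b) % p = a := by
    rw [Nat.add_mul_mod_self_left, Nat.mod_eq_of_lt ha]
  have e2 : (a + p * b) / p = b := by
    rw [Nat.add_mul_div_left _ _ hp0, Nat.div_eq_of_lt ha, zero_add]
  rw [e1, e2]
  rcases Nat.lt_or_ge (2 * a) p with h | h
  · have e3 : (2 * (a + p * b)) % p = 2 * a := by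
      rw [show 2 * (a + p * b) = 2 * a + p * (2 * b) by ring, Nat.add_mul_mod_self_left,
        Nat.mod_eq_of_lt h]
    have e4 : (2 * (a + p * b)) / p = 2 * b := by
      rw [show 2 * (a + p * b) = 2 * a + p * (2 * b) by ring, Nat.add_mul_div_left _ _ hp0,
        Nat.div_eq_of_lt h, zero_add]
    rw [e3, e4]
    push_cast
    rfl
  · obtain ⟨c, hc⟩ := Nat.exists_eq_add_of_le h
    have hcp : c < p := by omega
    have e3 : (2 * (a + p * b)) % p = c := by
      rw [show 2 * (a + p * b) = c + p * (2 * b + 1) by rw [mul_add, hc]; ring,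
        Nat.add_mul_mod_self_left, Nat.mod_eq_of_lt hcp]
    have e5 : Nat.choose c a = 0 := Nat.choose_eq_zero_of_lt (by omega)
    rw [e3, e5, zero_mul, Nat.cast_zero]
    -- the right side vanishes too
    have h3 := Choose.choose_modEq_choose_mod_mul_choose_div_nat (n := 2 * a) (k := a) (p := p)
    have h4 := (ZMod.natCast_eq_natCast_iff _ _ _).mpr h3
    have e6 : (2 * a) % p = c := by
      rw [hc, Nat.add_mod_left, Nat.mod_eq_of_lt hcp]
    rw [e6, Nat.mod_eq_of_lt ha, e5, zero_mul, Nat.cast_zero] at h4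
    have h5 : (Nat.centralBinom a : ZMod p) = 0 := by rw [Nat.centralBinom]; exact h4
    rw [h5, zero_mul]

lemma gM_mul (m : ℕ) : gM p (p * m) = gM p p *
    ∑ k ∈ Finset.range m, C ((Nat.centralBinom k : ZMod p) ^ 2) * X ^ (p * k) := by
  induction m with
  | zero => simp [gM]
  | succ m ih =>
    have h1 : gM p (p * (m + 1)) = gM p (p * m) + ∑ a ∈ Finset.range p,
        C ((Nat.centralBinom (p * m + a) : ZMod p) ^ 2) * X ^ (p * m + a) := by
      rw [gM, mul_add, mul_one, Finset.sum_range_add]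
      rfl
    rw [h1, ih, Finset.sum_range_succ, mul_add]
    congr 1
    rw [gM, Finset.sum_mul]
    refine Finset.sum_congr rfl fun a ha => ?_
    rw [Finset.mem_range] at ha
    rw [add_comm (p * m) a, central_lucas p a m ha, mul_pow, C_mul, pow_add]
    ring

lemma gM_sq : gM p (p * p) = gM p p * gM p p ^ p := by
  rw [gM_mul]
  congr 1
  rw [← ZMod.expand_card, gM, map_sum]
  refine Finset.sum_congr rfl fun k _ => ?_
  rw [map_mul, expand_C, map_pow (expand (ZMod p) p) X k, expand_X, ← pow_mul]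

/-- `Y = (∑_{k<p} binom(2k,k)² (u (1 - 4u))^k)²` -/
noncomputable def YY : (ZMod p)[X] := ((gM p p).comp (X * (1 - 4 * X))) ^ 2

lemma comp_gM_sq : ((gM p (p * p)).comp (X * (1 - 4 * X))) ^ 2 = YY p * expand (ZMod p) p (YY p) := by
  rw [ZMod.expand_card, YY, gM_sq, mul_comp, pow_comp]
  ring

lemma half_cast (hp2 : p ≠ 2) : 2 * ((p / 2 : ℕ) : ZMod p) = -1 := by
  have h1 := two_half p hp2
  have h2 : ((2 * (p / 2) : ℕ) : ZMod p) = ((p - 1 : ℕ) : ZMod p) := by rw [h1]
  rw [Nat.cast_sub hp.out.one_le] at h2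
  push_cast at h2
  rw [h2]
  simp

lemma central_half (hp2 : p ≠ 2) (k : ℕ) (hk : k ≤ p / 2) :
    (Nat.centralBinom k : ZMod p) = (-4) ^ k * Nat.choose (p / 2) k := by
  induction k with
  | zero => simp
  | succ k ih =>
    have ih' := ih (by omega)
    have h1 : ((k : ZMod p) + 1) * Nat.centralBinom (k + 1) =
        2 * (2 * k + 1) * Nat.centralBinom k := by
      exact_mod_cast congrArg (Nat.cast (R := ZMod p)) (Nat.succ_mul_centralBinom_succ k)
    have h2 : (Nat.choose (p / 2) (k + 1) : ZMod p) * (k + 1) =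
        Nat.choose (p / 2) k * (((p / 2 : ℕ) : ZMod p) - k) := by
      have := congrArg (Nat.cast (R := ZMod p)) (Nat.choose_succ_right_eq (p / 2) k)
      rw [Nat.cast_mul, Nat.cast_mul, Nat.cast_sub (by omega)] at this
      exact_mod_cast this
    have h3 : ((k : ZMod p) + 1) ≠ 0 := by
      intro h0
      have h4 : ((k + 1 : ℕ) : ZMod p) = 0 := by push_cast; exact h0
      rw [ZMod.natCast_eq_zero_iff] at h4
      have := Nat.le_of_dvd (by omega) h4
      have := hp.out.two_le
      omega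
    have h5 := half_cast p hp2
    apply mul_left_cancel₀ h3
    rw [h1, ih', pow_succ]
    linear_combination (-(-4) ^ k * (-4)) * h2 + (2 * (-4) ^ k * (Nat.choose (p / 2) k : ZMod p)) * h5

lemma central_zero (k : ℕ) (hk : p / 2 < k) (hk' : k < p) :
    (Nat.centralBinom k : ZMod p) = 0 := by
  have h := central_lucas p k 0 hk'
  have h3 := Choose.choose_modEq_choose_mod_mul_choose_div_nat (n := 2 * k) (k := k) (p := p)
  have h4 := (ZMod.natCast_eq_natCast_iff _ _ _).mpr h3
  obtain ⟨c, hc⟩ := Nat.exists_eq_add_of_le (by omega : p ≤ 2 * k)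
  have hcp : c < p := by omega
  have e6 : (2 * k) % p = c := by rw [hc, Nat.add_mod_left, Nat.mod_eq_of_lt hcp]
  have e5 : Nat.choose c k = 0 := Nat.choose_eq_zero_of_lt (by omega)
  rw [e6, Nat.mod_eq_of_lt hk', e5, zero_mul, Nat.cast_zero] at h4
  rw [Nat.centralBinom]; exact h4

lemma gM_eq (hp2 : p ≠ 2) : gM p p = (HH p).comp (C 16 * X) := by
  have h1 : p = (p / 2 + 1) + (p - (p / 2 + 1)) := by
    have := hp.out.two_le; omega
  have h2 : gM p p = ∑ k ∈ Finset.range (p / 2 + 1),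
      C ((Nat.centralBinom k : ZMod p) ^ 2) * X ^ k := by
    rw [gM]
    symm
    refine Finset.sum_subset (fun k hk => ?_) (fun k hk hk' => ?_)
    · rw [Finset.mem_range] at hk ⊢; omega
    · rw [Finset.mem_range] at hk hk'
      rw [central_zero p k (by omega) hk]
      simp
  rw [h2, HH, Polynomial.sum_comp]
  refine Finset.sum_congr rfl fun k hk => ?_
  rw [Finset.mem_range] at hk
  rw [central_half p hp2 k (by omega), mul_comp, C_comp, pow_comp, X_comp, mul_pow, mul_pow,
    ← C_pow, ← pow_mul, mul_comm k 2, pow_mul, ← mul_assoc, ← C_mul]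
  norm_num
  ring

lemma HH_deg : (HH p).natDegree ≤ p / 2 := by
  refine natDegree_sum_le_of_forall_le _ _ fun k hk => ?_
  rw [Finset.mem_range] at hk
  exact (natDegree_C_mul_X_pow_le _ _).trans (by omega)

lemma HH_top : (HH p).coeff (p / 2) = 1 := by
  rw [HH, finsetSum_coeff]
  simp only [coeff_C_mul_X_pow]
  rw [Finset.sum_ite_eq, if_pos (Finset.mem_range.mpr (Nat.lt_succ_self _))]
  simp

lemma gM_deg (hp2 : p ≠ 2) : (gM p p).natDegree ≤ p / 2 := by
  rw [gM_eq p hp2]
  refine natDegree_comp_le.trans ?_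
  have h1 : (C 16 * X : (ZMod p)[X]).natDegree ≤ 1 := by compute_degree
  calc (HH p).natDegree * (C 16 * X : (ZMod p)[X]).natDegree ≤ (p / 2) * 1 :=
        Nat.mul_le_mul (HH_deg p) h1
    _ = p / 2 := mul_one _

lemma YY_deg (hp2 : p ≠ 2) : (YY p).natDegree ≤ 2 * (p - 1) := by
  have h1 : (X * (1 - 4 * X) : (ZMod p)[X]).natDegree ≤ 2 := by compute_degree
  have h2 : ((gM p p).comp (X * (1 - 4 * X))).natDegree ≤ (p / 2) * 2 :=
    natDegree_comp_le.trans (Nat.mul_le_mul (gM_deg p hp2) h1)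
  have h3 := natDegree_pow_le_of_le 2 h2
  rw [YY]
  have := two_half p hp2
  omega

lemma sixteen (hp2 : p ≠ 2) : (16 : ZMod p) ^ (p / 2) = 1 := by
  have h1 := two_half p hp2
  have h4 : (4 : ZMod p) ≠ 0 := by
    have : (2 : ZMod p) ≠ 0 := by
      have := ZMod.natCast_eq_zero_iff 2 p
      intro h0
      have h5 : ((2 : ℕ) : ZMod p) = 0 := by exact_mod_cast h0
      rw [ZMod.natCast_eq_zero_iff] at h5
      exact hp2 ((Nat.prime_dvd_prime_iff_eq hp.out Nat.prime_two).mp h5)
    intro h0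
    apply this
    have : (2 : ZMod p) * 2 = 0 := by rw [← h0]; norm_num
    exact mul_self_eq_zero.mp this
  have : (16 : ZMod p) = 4 ^ 2 := by norm_num
  rw [this, ← pow_mul, h1]
  exact ZMod.pow_card_sub_one_eq_one h4

lemma YY_top (hp2 : p ≠ 2) : (YY p).coeff (2 * (p - 1)) = 1 := by
  have h0 := two_half p hp2
  have h1 : (X * (1 - 4 * X) : (ZMod p)[X]).natDegree ≤ 2 := by compute_degree
  have h2 : ((gM p p).comp (X * (1 - 4 * X))).natDegree ≤ (p / 2) * 2 :=
    natDegree_comp_le.trans (Nat.mul_le_mul (gM_deg p hp2) h1)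
  have h16 := sixteen p hp2
  have h3 : ((gM p p).comp (X * (1 - 4 * X))).coeff ((p / 2) * 2) = (-4) ^ (p / 2) := by
    -- only the top term contributes
    rw [comp, eval₂_eq_sum_range' C (Nat.lt_succ_of_le (gM_deg p hp2)), finsetSum_coeff,
      Finset.sum_range_succ, Finset.sum_eq_zero, zero_add]
    · rw [coeff_C_mul, coeff_pow_of_natDegree_le h1]
      have e1 : (X * (1 - 4 * X) : (ZMod p)[X]).coeff 2 = -4 := by
        have : (X * (1 - 4 * X) : (ZMod p)[X]) = X + C (-4) * X ^ 2 := by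
          rw [C_neg, show (C (4 : ZMod p) : (ZMod p)[X]) = 4 from rfl]; ring
        rw [this, coeff_add, coeff_C_mul, coeff_X_pow, coeff_X]
        norm_num
      have e2 : (gM p p).coeff (p / 2) = 1 := by
        rw [gM_eq p hp2, comp_C_mul_X_coeff, HH_top, h16, mul_one]
      rw [e1, e2, one_mul]
    · intro k hk
      rw [Finset.mem_range] at hk
      have h9 := natDegree_pow_le_of_le k h1
      have h10 : ((X * (1 - 4 * X) : (ZMod p)[X]) ^ k).coeff (p / 2 * 2) = 0 :=
        coeff_eq_zero_of_natDegree_lt (by omega)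
      rw [coeff_C_mul, h10, mul_zero]
  have h4 : (YY p).coeff (2 * (p - 1)) =
      (((gM p p).comp (X * (1 - 4 * X))).coeff ((p / 2) * 2)) ^ 2 := by
    rw [YY, ← coeff_pow_of_natDegree_le h2]
    congr 1
    omega
  rw [h4, h3, ← pow_mul, mul_comm (p / 2) 2, pow_mul]
  have : ((-4 : ZMod p)) ^ 2 = 16 := by norm_num
  rw [this, h16]

/-- **The Hasse invariant** is the number of points modulo `p`. -/
theorem YY_coeff (hp2 : p ≠ 2) : (YY p).coeff (p - 1) = (Nat.card (Sol p 1) : ZMod p) := by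
  have hn := two_half p hp2
  have hp3 : 3 ≤ p := by have := hp.out.two_le; omega
  have h1 := sum_eval p (YY p) (by have := YY_deg p hp2; omega)
  rw [YY_top p hp2] at h1
  have h8 : (8 : ZMod p) ≠ 0 := by
    have h2 : (2 : ZMod p) ≠ 0 := by
      intro h0
      have h5 : ((2 : ℕ) : ZMod p) = 0 := by exact_mod_cast h0
      rw [ZMod.natCast_eq_zero_iff] at h5
      exact hp2 ((Nat.prime_dvd_prime_iff_eq hp.out Nat.prime_two).mp h5)
    have : (8 : ZMod p) = 2 ^ 3 := by norm_num
    rw [this]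
    exact pow_ne_zero _ h2
  -- values of `YY`
  have h2 : ∀ v : ZMod p, (YY p).eval v = (LL p ((1 - 8 * v) ^ 2)) ^ 2 := by
    intro v
    rw [YY, eval_pow, eval_comp, gM_eq p hp2, eval_comp, ← LL_sq p hp2, ← LL_symm]
    congr 2
    simp only [eval_mul, eval_C, eval_X, eval_sub, eval_one, eval_ofNat]
    ring
  have h3 : ∑ v : ZMod p, (YY p).eval v = ∑ x : ZMod p, (LL p (x ^ 2)) ^ 2 := by
    rw [Finset.sum_congr rfl fun v _ => h2 v]
    let e : ZMod p ≃ ZMod p := (Equiv.mulLeft₀ 8 h8).trans (Equiv.subLeft 1)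
    exact Fintype.sum_equiv e _ _ fun v => rfl
  have h4 : ∑ x : ZMod p, (LL p (x ^ 2)) ^ 2 = ∑ s : ZMod p, (1 + s ^ (p / 2)) * (LL p s) ^ 2 := by
    classical
    rw [← Finset.sum_fiberwise (Finset.univ : Finset (ZMod p)) (fun x => x ^ 2)]
    refine Finset.sum_congr rfl fun s _ => ?_
    rw [← card_sqrt p hp2 s, ← nsmul_eq_mul, ← Finset.sum_const]
    refine Finset.sum_congr rfl fun x hx => ?_
    rw [Finset.mem_filter] at hx
    rw [hx.2]
  have h5 : ∑ s : ZMod p, (LL p s) ^ 2 = -1 := by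
    have e1 : ∀ s : ZMod p, (LL p s) ^ 2 = ((HH p) ^ 2).eval s := fun s => by
      rw [LL_sq p hp2, eval_pow]
    have hd : ((HH p) ^ 2).natDegree ≤ 2 * (p / 2) := natDegree_pow_le_of_le 2 (HH_deg p)
    rw [Finset.sum_congr rfl fun s _ => e1 s, sum_eval p _ (by omega)]
    have e2 : ((HH p) ^ 2).coeff (2 * (p - 1)) = 0 := coeff_eq_zero_of_natDegree_lt (by omega)
    have e3 : ((HH p) ^ 2).coeff (p - 1) = 1 := by
      rw [← hn, coeff_pow_of_natDegree_le (HH_deg p), HH_top, one_pow]
    rw [e2, e3]; ring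
  have h6 := card_Sol p hp2 1 (by simp)
  simp only [Int.cast_one, one_pow, one_mul] at h6
  rw [h3, h4, Finset.sum_congr rfl fun s _ => add_mul 1 (s ^ (p / 2)) ((LL p s) ^ 2),
    Finset.sum_add_distrib] at h1
  simp only [one_mul] at h1
  rw [h5] at h1
  rw [h6]
  linear_combination h1

/-- if the number of points is divisible by `p` then so are the coefficients of index
`≡ -1 mod p`. -/
lemma coeff_zero_of (hp2 : p ≠ 2) (h : (Nat.card (Sol p 1) : ZMod p) = 0) (m : ℕ) (hm : 1 ≤ m) :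
    (((gM p (p * p)).comp (X * (1 - 4 * X))) ^ 2).coeff (p * m - 1) = 0 := by
  rw [comp_gM_sq, coeff_mul]
  refine Finset.sum_eq_zero ?_
  rintro ⟨i, j⟩ hij
  rw [Finset.HasAntidiagonal.mem_antidiagonal] at hij
  simp only at hij ⊢
  rw [coeff_expand hp.out.pos]
  split_ifs with hd
  · obtain ⟨l, rfl⟩ := hd
    have hp0 := hp.out.pos
    have hlm : l < m := by
      by_contra hlm
      have : p * m ≤ p * l := Nat.mul_le_mul_left _ (by omega)
      have : 1 ≤ p * m := Nat.mul_pos hp0 hm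
      omega
    obtain ⟨d, rfl⟩ : ∃ d, m = l + 1 + d := ⟨m - l - 1, by omega⟩
    rcases Nat.eq_zero_or_pos d with rfl | hd
    · have hi : i = p - 1 := by
        rw [add_zero, mul_add, mul_one] at hij
        omega
      rw [hi, YY_coeff p hp2, h, zero_mul]
    · have hi : 2 * (p - 1) < i := by
        have : p * (l + 1 + d) = p * l + p + p * d := by ring
        have : p ≤ p * d := Nat.le_mul_of_pos_right _ hd
        omega
      rw [coeff_eq_zero_of_natDegree_lt (lt_of_le_of_lt (YY_deg p hp2) hi), zero_mul]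
  · rw [mul_zero]

end H594.CY
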