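import Pool.Agent.Run7.h594.OD.NearB
import Pool.Agent.Run7.h594.CY.Hasse

/-!
# The weight 4 form of level 8: `w = ∑ binom(2k,k)² (u (1 - 4u))^k` and the coefficients of
`w^4 u (1 - 4u) (1 - 8u)` at multiples of `p`
-/

set_option autoImplicit false

namespace H594.CY

open Polynomial H809.OD H594.OD


/-- `∑_{k<m} binom(2k,k)² X^k` over `ℤ` -/
noncomputable def gZ (m : ℕ) : ℤ[X] :=
  ∑ k ∈ Finset.range m, C ((Nat.centralBinom k : ℤ) ^ 2) * X ^ k

/-- the same over `ℚ` -/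
noncomputable def gQ (m : ℕ) : ℚ[X] :=
  ∑ k ∈ Finset.range m, C ((Nat.centralBinom k : ℚ) ^ 2) * X ^ k

/-- the substitution `t = u (1 - 4u)` -/
noncomputable def tp : ℚ[X] := X * (1 - 4 * X)

/-- the differential equation up to the top term -/
lemma gQ_ode (m : ℕ) : derivative (X * (1 - 16 * X) * derivative (gQ (m + 1))) - 4 * gQ (m + 1) =
    C (-4 * (2 * (m : ℚ) + 1) ^ 2 * (Nat.centralBinom m : ℚ) ^ 2) * X ^ m := by
  induction m with
  | zero =>
    have : (C (4 : ℚ) : ℚ[X]) = 4 := rfl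
    simp [gQ, this]
  | succ m ih =>
    have h1 : gQ (m + 1 + 1) = gQ (m + 1) +
        C ((Nat.centralBinom (m + 1) : ℚ) ^ 2) * X ^ (m + 1) := by
      rw [gQ, Finset.sum_range_succ]; rfl
    have h2 : ((m : ℚ) + 1) * Nat.centralBinom (m + 1) = 2 * (2 * m + 1) * Nat.centralBinom m := by
      exact_mod_cast congrArg (Nat.cast (R := ℚ)) (Nat.succ_mul_centralBinom_succ m)
    have h3 : (C ((m : ℚ) + 1) * C (Nat.centralBinom (m + 1) : ℚ)) ^ 2 =
        (4 * C (2 * (m : ℚ) + 1) ^ 2 * C (Nat.centralBinom m : ℚ) ^ 2 : ℚ[X]) := by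
      rw [← C_mul, h2, show (4 : ℚ[X]) = C 4 from rfl, ← C_pow, ← C_pow, ← C_pow, ← C_mul, ← C_mul]
      congr 1; ring
    have h4 : derivative (X * (1 - 16 * X) * derivative
        (C ((Nat.centralBinom (m + 1) : ℚ) ^ 2) * X ^ (m + 1) : ℚ[X])) =
        C ((Nat.centralBinom (m + 1) : ℚ) ^ 2) * (C ((m : ℚ) + 1) ^ 2 * X ^ m -
          16 * C ((m : ℚ) + 1) * C ((m : ℚ) + 2) * X ^ (m + 1)) := by
      have e1 : (X * (1 - 16 * X) * derivative
        (C ((Nat.centralBinom (m + 1) : ℚ) ^ 2) * X ^ (m + 1) : ℚ[X])) =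
        C ((Nat.centralBinom (m + 1) : ℚ) ^ 2) * (C ((m : ℚ) + 1) * (X ^ (m + 1) -
          16 * X ^ (m + 2))) := by
        rw [derivative_C_mul, derivative_X_pow, Nat.add_sub_cancel]
        push_cast
        ring
      rw [e1, derivative_C_mul, derivative_C_mul, derivative_sub, derivative_X_pow, derivative_mul,
        derivative_X_pow, derivative_ofNat]
      have e2 : (C (((m + 1 : ℕ) : ℚ)) : ℚ[X]) = C ((m : ℚ) + 1) := by push_cast; rfl
      have e3 : (C (((m + 2 : ℕ) : ℚ)) : ℚ[X]) = C ((m : ℚ) + 2) := by push_cast; rfl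
      rw [e2, e3, show m + 1 - 1 = m by omega, show m + 2 - 1 = m + 1 by omega]
      ring
    rw [h1, derivative_add, mul_add, mul_add, derivative_add, h4]
    have h5 : derivative (X * (1 - 16 * X) * derivative (gQ (m + 1))) +
        C ((Nat.centralBinom (m + 1) : ℚ) ^ 2) * (C ((m : ℚ) + 1) ^ 2 * X ^ m -
          16 * C ((m : ℚ) + 1) * C ((m : ℚ) + 2) * X ^ (m + 1)) -
        (4 * gQ (m + 1) + 4 * (C ((Nat.centralBinom (m + 1) : ℚ) ^ 2) * X ^ (m + 1))) =
        (derivative (X * (1 - 16 * X) * derivative (gQ (m + 1))) - 4 * gQ (m + 1)) +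
        C ((Nat.centralBinom (m + 1) : ℚ) ^ 2) * (C ((m : ℚ) + 1) ^ 2 * X ^ m -
          16 * C ((m : ℚ) + 1) * C ((m : ℚ) + 2) * X ^ (m + 1)) -
        4 * (C ((Nat.centralBinom (m + 1) : ℚ) ^ 2) * X ^ (m + 1)) := by ring
    rw [h5, ih]
    have h6 : (C (-4 * (2 * (m : ℚ) + 1) ^ 2 * (Nat.centralBinom m : ℚ) ^ 2) : ℚ[X]) =
        -(4 * C (2 * (m : ℚ) + 1) ^ 2 * C (Nat.centralBinom m : ℚ) ^ 2) := by
      rw [show (4 : ℚ[X]) = C 4 from rfl, ← C_pow, ← C_pow, ← C_mul, ← C_mul, ← C_neg]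
      congr 1; ring
    have h7 : (C (-4 * (2 * ((m + 1 : ℕ) : ℚ) + 1) ^ 2 * (Nat.centralBinom (m + 1) : ℚ) ^ 2) :
        ℚ[X]) = C ((Nat.centralBinom (m + 1) : ℚ) ^ 2) *
          (-(16 * C ((m : ℚ) + 1) * C ((m : ℚ) + 2)) - 4) := by
      rw [show (4 : ℚ[X]) = C 4 from rfl, show (16 : ℚ[X]) = C 16 from rfl, ← C_mul, ← C_mul,
        ← C_neg, ← C_sub, ← C_mul]
      congr 1; push_cast; ring
    rw [h6, h7, ← h3, C_pow]
    ring

/-- the differential equation of `w` -/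
lemma w_ode (h : Theta) : DD (DD w) = ev1 H809.OD.eta * w := by
  have h1 : DD w = zt * w := by
    have := DD_w_pow h 1
    rw [pow_one] at this
    rw [this]; simp
  have h2 : DD zt = ev1 H809.OD.eta - zt ^ 2 := by
    rw [DD_zt h]; simp [ev2]
  rw [h1, DD_mul, h1, h2]
  ring

/-- evaluation of a polynomial at `t = u (1 - 4u)` -/
noncomputable def evt (g : ℚ[X]) : PowerSeries ℚ := ev1 (g.comp tp)

lemma DD_evt (h : Theta) (g : ℚ[X]) : DD (evt g) = evt (X * (1 - 16 * X) * derivative g) := by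
  rw [evt, evt, DD_ev1 h, d1_apply]
  congr 1
  rw [derivative_comp, mul_comp, mul_comp, X_comp, sub_comp, one_comp, mul_comp, X_comp]
  have h1 : derivative tp = 1 - 8 * X := by
    rw [tp, derivative_mul, derivative_sub, derivative_mul, derivative_X]
    simp only [derivative_one, derivative_ofNat]
    ring
  have h2 : (16 : ℚ[X]).comp tp = 16 := by
    rw [show (16 : ℚ[X]) = C 16 from rfl, C_comp]
  rw [h1, h2, pp, tp]
  ring

lemma evt_add (a b : ℚ[X]) : evt (a + b) = evt a + evt b := by rw [evt, evt, evt, add_comp, map_add]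

lemma evt_sub (a b : ℚ[X]) : evt (a - b) = evt a - evt b := by rw [evt, evt, evt, sub_comp, map_sub]

lemma evt_mul (a b : ℚ[X]) : evt (a * b) = evt a * evt b := by rw [evt, evt, evt, mul_comp, map_mul]

lemma X_dvd_u (h : Theta) : PowerSeries.X ∣ u := by
  rw [PowerSeries.X_dvd_iff, ← PowerSeries.coeff_zero_eq_constantCoeff_apply]
  exact h.u_zero

lemma X_dvd_evt (h : Theta) : PowerSeries.X ∣ evt X := by
  rw [evt, X_comp, tp, map_mul]
  refine Dvd.dvd.mul_right ?_ _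
  have : ev1 (X : ℚ[X]) = u := by rw [ev1_apply, aeval_X]
  rw [this]
  exact X_dvd_u h

lemma coef_zero_wi (h : Theta) : PowerSeries.coeff (R := ℚ) 0 wi = 1 := by
  have h1 := congrArg (PowerSeries.constantCoeff (R := ℚ)) (w_mul_wi h)
  have h2 := h.w_zero
  rw [PowerSeries.coeff_zero_eq_constantCoeff_apply] at h2 ⊢
  rwa [map_mul, h2, one_mul, map_one] at h1

lemma coef_mul_low0 (g f : PowerSeries ℚ) (j : ℕ) (hf : ∀ i < j, PowerSeries.coeff (R := ℚ) i f = 0) :
    PowerSeries.coeff (R := ℚ) j (g * f) = PowerSeries.coeff (R := ℚ) 0 g * PowerSeries.coeff (R := ℚ) j f := by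
  rw [PowerSeries.coeff_mul]
  refine Finset.sum_eq_single (0, j) ?_ ?_
  · rintro ⟨a, b⟩ hab hne
    rw [Finset.HasAntidiagonal.mem_antidiagonal] at hab
    simp only at hab ⊢
    rcases lt_or_ge b j with hb | hb
    · rw [hf b hb, mul_zero]
    · exfalso; apply hne
      have h1 : a = 0 := by omega
      have h2 : b = j := by omega
      rw [h1, h2]
  · intro hn
    exact absurd (Finset.HasAntidiagonal.mem_antidiagonal.mpr (by simp)) hn

lemma coef_DD (h : Theta) (f : PowerSeries ℚ) (j : ℕ) (hf : ∀ i < j, PowerSeries.coeff (R := ℚ) i f = 0) :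
    PowerSeries.coeff (R := ℚ) j (DD f) = j * PowerSeries.coeff (R := ℚ) j f := by
  have h1 : ∀ i < j, PowerSeries.coeff (R := ℚ) i (th f) = 0 := fun i hi => by rw [coef_th, hf i hi, mul_zero]
  rw [DD, coef_mul_low0 _ _ j h1, coef_th]
  have h2 : PowerSeries.coeff (R := ℚ) 0 (wi ^ 2) = 1 := by
    have := coef_zero_wi h
    rw [PowerSeries.coeff_zero_eq_constantCoeff_apply] at this ⊢
    rw [map_pow, this, one_pow]
  rw [h2, one_mul]

lemma DD_low (f : PowerSeries ℚ) (j : ℕ) (hf : ∀ i < j, PowerSeries.coeff (R := ℚ) i f = 0) :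
    ∀ i < j, PowerSeries.coeff (R := ℚ) i (DD f) = 0 := by
  have h1 := DD_dvd j f (PowerSeries.X_pow_dvd_iff.mpr hf)
  exact PowerSeries.X_pow_dvd_iff.mp h1

/-- `w` is the hypergeometric series in `t` -/
lemma w_approx (h : Theta) (m : ℕ) : PowerSeries.X ^ (m + 1) ∣ w - evt (gQ (m + 1)) := by
  set E := w - evt (gQ (m + 1)) with hE
  -- the equation for `E`
  have h1 : PowerSeries.X ^ (m + 1) ∣ DD (DD E) - ev1 H809.OD.eta * E := by
    have e0 : DD E = DD w - DD (evt (gQ (m + 1))) := by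
      have := DD_add E (evt (gQ (m + 1)))
      rw [hE, sub_add_cancel] at this
      rw [hE, this]; ring
    have e1 : DD (DD E) = DD (DD w) - DD (DD (evt (gQ (m + 1)))) := by
      have := DD_add (DD E) (DD (evt (gQ (m + 1))))
      rw [e0, sub_add_cancel] at this
      rw [e0, this]; ring
    have e2 : ev1 H809.OD.eta = evt (4 * X * (1 - 16 * X)) := by
      rw [evt]
      congr 1
      simp only [mul_comp, X_comp, sub_comp, one_comp, ofNat_comp]
      unfold H809.OD.eta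
      rw [tp]
      ring
    have e3 : DD (DD E) - ev1 H809.OD.eta * E =
        evt (4 * X * (1 - 16 * X)) * evt (gQ (m + 1)) -
        evt (X * (1 - 16 * X) * derivative (X * (1 - 16 * X) * derivative (gQ (m + 1)))) := by
      rw [e1, w_ode h, DD_evt h, DD_evt h, e2, hE]
      ring
    have e4 : evt (4 * X * (1 - 16 * X)) * evt (gQ (m + 1)) -
        evt (X * (1 - 16 * X) * derivative (X * (1 - 16 * X) * derivative (gQ (m + 1)))) =
        evt (-(X * (1 - 16 * X)) * (derivative (X * (1 - 16 * X) * derivative (gQ (m + 1))) -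
          4 * gQ (m + 1))) := by
      rw [← evt_mul, ← evt_sub]
      congr 1
      ring
    rw [e3, e4, gQ_ode, show -(X * (1 - 16 * X)) * (C (-4 * (2 * (m : ℚ) + 1) ^ 2 *
      (Nat.centralBinom m : ℚ) ^ 2) * X ^ m) = X ^ (m + 1) * (-(1 - 16 * X) *
      (C (-4 * (2 * (m : ℚ) + 1) ^ 2 * (Nat.centralBinom m : ℚ) ^ 2))) by ring, evt_mul]
    refine Dvd.dvd.mul_right ?_ _
    have e5 : evt ((X : ℚ[X]) ^ (m + 1)) = evt X ^ (m + 1) := by
      rw [evt, evt, pow_comp, map_pow]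
    rw [e5]
    exact pow_dvd_pow_of_dvd (X_dvd_evt h) _
  -- the constant term
  have h2 : PowerSeries.coeff (R := ℚ) 0 E = 0 := by
    rw [hE, map_sub, h.w_zero]
    have : PowerSeries.coeff (R := ℚ) 0 (evt (gQ (m + 1))) = 1 := by
      have h3 : gQ (m + 1) = 1 + X * ∑ k ∈ Finset.range m,
          C ((Nat.centralBinom (k + 1) : ℚ) ^ 2) * X ^ k := by
        rw [gQ, Finset.sum_range_succ', Finset.mul_sum, add_comm]
        congr 1
        · simp
        · exact Finset.sum_congr rfl fun k _ => by ring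
      obtain ⟨r, hr⟩ := X_dvd_evt h
      have h4 : evt (1 : ℚ[X]) = 1 := by rw [evt, one_comp, map_one]
      rw [h3, evt_add, evt_mul, hr, h4, map_add, PowerSeries.coeff_zero_eq_constantCoeff_apply,
        PowerSeries.coeff_zero_eq_constantCoeff_apply]
      simp
    rw [this, sub_self]
  -- the order of `E`
  rw [PowerSeries.X_pow_dvd_iff]
  by_contra hc
  push Not at hc
  classical
  obtain ⟨j, hj, hj0, hjl⟩ : ∃ j, j < m + 1 ∧ PowerSeries.coeff (R := ℚ) j E ≠ 0 ∧ ∀ i < j, PowerSeries.coeff (R := ℚ) i E = 0 := by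
    obtain ⟨i, hi, hi'⟩ := hc
    have hex : ∃ i, PowerSeries.coeff (R := ℚ) i E ≠ 0 := ⟨i, hi'⟩
    exact ⟨Nat.find hex, lt_of_le_of_lt (Nat.find_min' hex hi') hi, Nat.find_spec hex,
      fun j hj => not_not.mp (Nat.find_min hex hj)⟩
  have hjpos : j ≠ 0 := fun h0 => hj0 (by rw [h0]; exact h2)
  have h3 : PowerSeries.coeff (R := ℚ) j (DD (DD E) - ev1 H809.OD.eta * E) = 0 :=
    PowerSeries.X_pow_dvd_iff.mp h1 j hj
  have h4 : PowerSeries.coeff (R := ℚ) 0 (ev1 H809.OD.eta) = 0 := by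
    have e1 : ev1 H809.OD.eta = u * ev1 (4 * (1 - 4 * X) * (1 - 8 * X) ^ 2) := by
      have : ev1 (X : ℚ[X]) = u := by rw [ev1_apply, aeval_X]
      rw [← this, ← map_mul]
      congr 1
      unfold H809.OD.eta
      ring
    obtain ⟨r, hr⟩ := X_dvd_u h
    rw [e1, hr, PowerSeries.coeff_zero_eq_constantCoeff_apply]
    simp
  rw [map_sub, coef_DD h _ j (DD_low E j hjl), coef_DD h _ j hjl, coef_mul_low0 _ _ j hjl, h4,
    zero_mul, sub_zero] at h3
  have h5 : (j : ℚ) ≠ 0 := by exact_mod_cast hjpos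
  exact (mul_ne_zero h5 (mul_ne_zero h5 hj0)) h3

end H594.CY
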