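import Pool.Agent.Run7.h594.CY.Den
import Pool.Agent.Run7.h809.OD.Stm2

/-!
# Ordinary primes of the rigid Calabi-Yau threefold: deduction from the main theorem
-/

set_option autoImplicit false

namespace H594.CY

open H809.OD H594.OD

lemma RR_ne_zero : RR ≠ 0 := by
  intro h
  have h1 := congrArg (fun f : Polynomial ℤ => f.eval 1) h
  simp only [RR, Polynomial.eval_mul, Polynomial.eval_sub, Polynomial.eval_X, Polynomial.eval_one,
    Polynomial.eval_ofNat, Polynomial.eval_zero] at h1
  norm_num at h1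

lemma RR_natDegree : RR.natDegree ≤ 2 + 2 := by
  unfold RR
  have : (Polynomial.X * (1 - 4 * Polynomial.X) * (1 - 8 * Polynomial.X) :
      Polynomial ℤ).natDegree ≤ 3 := by
    compute_degree
  omega

open Classical in
/-- the primes with property `O` have positive lower logarithmic-weight density -/
def LogDens (O : ℕ → Prop) : Prop :=
  ∃ c : ℝ, 0 < c ∧ ∃ x0 : ℕ, ∀ x : ℕ, x0 ≤ x → c * x ≤
      ∑ p ∈ (Finset.range (x + 1)).filter (fun p : ℕ => p.Prime ∧ O p), Real.log p

open Classical in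
theorem cy_log (h : Theta) (hm : S_Main) : LogDens (fun p : ℕ => ¬ p ∣ Nat.card (Sol p 1)) := by
  have hint : w ^ (2 + 2) * Polynomial.aeval u RR ∈ IntSer := by
    refine mul_mem (pow_mem h.w_int _) ?_
    rw [RR]
    simp only [map_mul, map_sub, map_one, map_ofNat, Polynomial.aeval_X]
    exact mul_mem (mul_mem h.u_int (sub_mem (one_mem _) (mul_mem (ofNat_mem _ 4) h.u_int)))
      (sub_mem (one_mem _) (mul_mem (ofNat_mem _ 8) h.u_int))
  obtain ⟨g, hg⟩ := hint
  have ha : ∀ n, PowerSeries.coeff n (w ^ (2 + 2) * Polynomial.aeval u RR) =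
      ((PowerSeries.coeff n g : ℤ) : ℚ) := by
    intro n
    rw [← hg, PowerSeries.coeff_map]
    rfl
  have key := hm 2 RR (fun n => PowerSeries.coeff n g)
    (fun p : ℕ => ¬ p ∣ Nat.card (Sol p 1)) (by norm_num) RR_ne_zero RR_natDegree ha
    (fun n hn => even_zero h _ ha n hn) ?_
  · obtain ⟨c, hc, x0, h⟩ := key
    refine ⟨c, hc, x0, fun x hx => (h x hx).trans (le_of_eq ?_)⟩
    exact Finset.sum_congr (by ext p; simp only [Finset.mem_filter]) fun _ _ => rfl
  · intro p hp hP n hn hpn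
    rw [not_not] at hP
    rcases eq_or_ne p 2 with rfl | hp2
    · have : PowerSeries.coeff n g = 0 :=
        even_zero h (fun n => PowerSeries.coeff n g) ha n (even_iff_two_dvd.mpr hpn)
      show ((2 : ℕ) : ℤ) ∣ PowerSeries.coeff n g
      rw [this]
      exact dvd_zero _
    · exact dvd_coeff h p hp hp2 hP _ ha n hn hpn

/-- the sum of the fourth powers of the binomial coefficients -/
def S4 (p : ℕ) : ℕ := ∑ k ∈ Finset.range (p / 2 + 1), Nat.choose (p / 2) k ^ 4

lemma dvd_iff (p : ℕ) (hp : p.Prime) (hp2 : p ≠ 2) (d : ℤ) (hd : ¬ (p : ℤ) ∣ d) :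
    p ∣ Nat.card (Sol p d) ↔ p ∣ S4 p := by
  have : Fact p.Prime := ⟨hp⟩
  have hd' : (d : ZMod p) ≠ 0 := fun h0 => hd ((ZMod.intCast_zmod_eq_zero_iff_dvd _ _).mp h0)
  have h1 := card_Sol_choose p hp2 d hd'
  rw [← ZMod.natCast_eq_zero_iff, ← ZMod.natCast_eq_zero_iff, h1, S4]
  constructor
  · intro h
    exact (mul_eq_zero.mp h).resolve_left (pow_ne_zero _ hd')
  · intro h
    rw [h, mul_zero]

open Classical in
/-- removing finitely many primes -/
lemma remove_finite (O O' : ℕ → Prop) (D : ℕ) (hD : D ≠ 0)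
    (hO : ∀ p, p.Prime → ¬ p ∣ D → O p → O' p)
    (h : LogDens O) : LogDens O' := by
  obtain ⟨c, hc, x0, h⟩ := h
  set B : ℝ := ∑ p ∈ D.primeFactors, Real.log p with hB
  have hlog : ∀ p : ℕ, p.Prime → 0 ≤ Real.log p := fun p hp =>
    Real.log_nonneg (by exact_mod_cast hp.one_le)
  obtain ⟨y0, hy0⟩ := exists_nat_ge (2 * B / c)
  refine ⟨c / 2, by positivity, max x0 y0, fun x hx => ?_⟩
  have h1 := h x (le_trans (le_max_left _ _) hx)
  have hxy : (y0 : ℝ) ≤ x := by exact_mod_cast le_trans (le_max_right _ _) hx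
  have h2 : B ≤ c / 2 * x := by
    have h3 : 2 * B / c ≤ x := hy0.trans hxy
    rw [div_le_iff₀ hc] at h3
    linarith
  have h4 : ∑ p ∈ (Finset.range (x + 1)).filter (fun p : ℕ => p.Prime ∧ O p), Real.log p ≤
      (∑ p ∈ (Finset.range (x + 1)).filter (fun p : ℕ => p.Prime ∧ O' p), Real.log p) + B := by
    have h5 : (Finset.range (x + 1)).filter (fun p : ℕ => p.Prime ∧ O p) ⊆
        (Finset.range (x + 1)).filter (fun p : ℕ => p.Prime ∧ O' p) ∪ D.primeFactors := by
      intro p hp
      rw [Finset.mem_filter] at hp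
      rw [Finset.mem_union, Finset.mem_filter, Nat.mem_primeFactors]
      by_cases hpD : p ∣ D
      · exact Or.inr ⟨hp.2.1, hpD, hD⟩
      · exact Or.inl ⟨hp.1, hp.2.1, hO p hp.2.1 hpD hp.2.2⟩
    calc ∑ p ∈ (Finset.range (x + 1)).filter (fun p : ℕ => p.Prime ∧ O p), Real.log p
        ≤ ∑ p ∈ (Finset.range (x + 1)).filter (fun p : ℕ => p.Prime ∧ O' p) ∪ D.primeFactors,
            Real.log p := by
          refine Finset.sum_le_sum_of_subset_of_nonneg h5 fun p hp _ => ?_
          rw [Finset.mem_union, Finset.mem_filter, Nat.mem_primeFactors] at hp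
          rcases hp with hp | hp
          · exact hlog p hp.2.1
          · exact hlog p hp.1
      _ ≤ _ := by
          rw [hB, ← Finset.sum_union_inter]
          refine le_add_of_nonneg_right (Finset.sum_nonneg fun p hp => ?_)
          rw [Finset.mem_inter, Nat.mem_primeFactors] at hp
          exact hlog p hp.2.1
  linarith

open Classical in
/-- lower natural density from the logarithmic form (Chebyshev) -/
lemma liminf_pos (O : ℕ → Prop) (h : LogDens O) :
    0 < Filter.liminf (fun x : ℕ => (Nat.card {p : ℕ // p ≤ x ∧ p.Prime ∧ O p} : ℝ) /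
      Nat.card {p : ℕ // p ≤ x ∧ p.Prime}) Filter.atTop := by
  obtain ⟨c, hc, x0, h⟩ := h
  have hcard1 : ∀ x : ℕ, Nat.card {p : ℕ // p ≤ x ∧ p.Prime ∧ O p} =
      ((Finset.range (x + 1)).filter (fun p : ℕ => p.Prime ∧ O p)).card := by
    intro x
    rw [← Nat.subtype_card ((Finset.range (x + 1)).filter (fun p : ℕ => p.Prime ∧ O p))]
    intro p
    rw [Finset.mem_filter, Finset.mem_range, Nat.lt_succ_iff]
  have hcard2 : ∀ x : ℕ, Nat.card {p : ℕ // p ≤ x ∧ p.Prime} = Nat.primeCounting x := by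
    intro x
    rw [Nat.primeCounting, Nat.primeCounting', Nat.count_eq_card_filter_range]
    rw [← Nat.subtype_card ((Finset.range (x + 1)).filter Nat.Prime)]
    intro p
    rw [Finset.mem_filter, Finset.mem_range, Nat.lt_succ_iff]
  have hpi := Chebyshev.eventually_primeCounting_le (ε := 1 / 2) (by norm_num)
  rw [Filter.eventually_atTop] at hpi
  obtain ⟨y0, hy⟩ := hpi
  have hlow : ∀ᶠ x : ℕ in Filter.atTop, c / 2 ≤
      (Nat.card {p : ℕ // p ≤ x ∧ p.Prime ∧ O p} : ℝ) / Nat.card {p : ℕ // p ≤ x ∧ p.Prime} := by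
    rw [Filter.eventually_atTop]
    refine ⟨max (max x0 2) ⌈y0⌉₊, fun x hx => ?_⟩
    have hx0 : x0 ≤ x := le_trans (le_trans (le_max_left _ _) (le_max_left _ _)) hx
    have hx2 : 2 ≤ x := le_trans (le_trans (le_max_right _ _) (le_max_left _ _)) hx
    have hxy : y0 ≤ (x : ℝ) :=
      le_trans (Nat.le_ceil y0) (by exact_mod_cast le_trans (le_max_right _ _) hx)
    have hx2' : (2 : ℝ) ≤ x := by exact_mod_cast hx2
    have hlog : 0 < Real.log x := Real.log_pos (by linarith)
    have h1 := hy x hxy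
    rw [Nat.floor_natCast] at h1
    have h4 : Real.log 4 + 1 / 2 ≤ 2 := by
      have : Real.log 4 = 2 * Real.log 2 := by
        rw [show (4 : ℝ) = 2 ^ 2 by norm_num, Real.log_pow]; norm_num
      have := Real.log_two_lt_d9
      linarith
    have h2 : (Nat.primeCounting x : ℝ) * Real.log x ≤ 2 * x := by
      have h3 : (Nat.primeCounting x : ℝ) * Real.log x ≤ (Real.log 4 + 1 / 2) * x := by
        calc (Nat.primeCounting x : ℝ) * Real.log x
            ≤ ((Real.log 4 + 1 / 2) * x / Real.log x) * Real.log x :=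
              mul_le_mul_of_nonneg_right h1 hlog.le
          _ = (Real.log 4 + 1 / 2) * x := by field_simp
      nlinarith
    have h5 : c * x ≤
        ((Finset.range (x + 1)).filter (fun p => p.Prime ∧ O p)).card * Real.log x := by
      refine (h x hx0).trans ?_
      rw [← nsmul_eq_mul]
      refine Finset.sum_le_card_nsmul _ _ _ fun p hp => ?_
      rw [Finset.mem_filter, Finset.mem_range] at hp
      have : (0 : ℝ) < p := by exact_mod_cast hp.2.1.pos
      exact Real.log_le_log this (by exact_mod_cast Nat.lt_succ_iff.1 hp.1)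
    have hpos : (0 : ℝ) < Nat.primeCounting x := by
      have : 0 < Nat.primeCounting x := by
        have h7 : Nat.primeCounting 2 ≤ Nat.primeCounting x := Nat.monotone_primeCounting hx2
        have h8 : Nat.primeCounting 2 = 1 := by decide
        omega
      exact_mod_cast this
    rw [hcard1, hcard2, le_div_iff₀ hpos]
    have h6 : c / 2 * (Nat.primeCounting x : ℝ) * Real.log x ≤
        ((Finset.range (x + 1)).filter (fun p => p.Prime ∧ O p)).card * Real.log x := by
      refine le_trans ?_ h5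
      nlinarith
    exact le_of_mul_le_mul_right h6 hlog
  have hle : ∀ x : ℕ, (Nat.card {p : ℕ // p ≤ x ∧ p.Prime ∧ O p} : ℝ) /
      Nat.card {p : ℕ // p ≤ x ∧ p.Prime} ≤ 1 := by
    intro x
    refine div_le_one_of_le₀ ?_ (Nat.cast_nonneg _)
    rw [hcard1, hcard2, Nat.primeCounting, Nat.primeCounting', Nat.count_eq_card_filter_range]
    exact_mod_cast Finset.card_le_card fun p hp => by
      rw [Finset.mem_filter] at hp ⊢
      exact ⟨hp.1, hp.2.1⟩
  refine lt_of_lt_of_le (by positivity : (0 : ℝ) < c / 2) ?_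
  refine Filter.le_liminf_of_le ?_ hlow
  refine Filter.IsBoundedUnder.isCoboundedUnder_ge ?_
  exact Filter.isBoundedUnder_of ⟨1, hle⟩

theorem cy_main (h : Theta) (hm : S_Main) (d : ℤ) (hd : d ≠ 0) :
    0 < Filter.liminf (fun x : ℕ =>
      (Nat.card {p : ℕ // p ≤ x ∧ p.Prime ∧ ¬ p ∣ Nat.card (Sol p d)} : ℝ) /
        Nat.card {p : ℕ // p ≤ x ∧ p.Prime}) Filter.atTop := by
  refine liminf_pos (fun p => ¬ p ∣ Nat.card (Sol p d)) (remove_finite
    (fun p => ¬ p ∣ Nat.card (Sol p 1)) (fun p => ¬ p ∣ Nat.card (Sol p d)) (2 * d.natAbs) ?_ ?_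
    (cy_log h hm))
  · exact mul_ne_zero two_ne_zero (Int.natAbs_ne_zero.mpr hd)
  · intro p hp hpd hP
    have hp2 : p ≠ 2 := fun h0 => hpd (by rw [h0]; exact dvd_mul_right _ _)
    have hd1 : ¬ (p : ℤ) ∣ d := fun h0 => hpd (Dvd.dvd.mul_left (Int.natCast_dvd.mp h0) _)
    have h1 : ¬ (p : ℤ) ∣ 1 := fun h0 => by
      have := Int.natCast_dvd_natCast.mp (by simpa using h0 : (p : ℤ) ∣ ((1 : ℕ) : ℤ))
      exact hp.one_lt.ne' (Nat.dvd_one.mp this)
    rw [dvd_iff p hp hp2 d hd1, ← dvd_iff p hp hp2 1 h1]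
    exact hP

end H594.CY
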