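import Pool.Agent.Run7.h594.CY.Fin

/-!
# The Calabi-Yau fivefold `d v² = ∏_{i < 4} y_i (y_i - z) (y_i - s)`
-/

set_option autoImplicit false

namespace H594.CY

open Polynomial

/-- the solutions `(s, z, y_1, …, y_4, v)` of `d v² = ∏ y_i (y_i - z) (y_i - s)` over `ℤ/p` -/
def Sol5 (p : ℕ) (d : ℤ) : Type :=
  {P : ZMod p × ZMod p × (Fin 4 → ZMod p) × ZMod p //
    (d : ZMod p) * P.2.2.2 ^ 2 =
      ∏ i : Fin 4, P.2.2.1 i * (P.2.2.1 i - P.2.1) * (P.2.2.1 i - P.1)}

section Field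

variable (p : ℕ) [hp : Fact p.Prime]

/-- the Hasse invariant of the fivefold -/
noncomputable def h5 : ZMod p := ((HH p) ^ 4).coeff (p - 1)

lemma sum_LL4 (hp2 : p ≠ 2) : ∑ s : ZMod p, (LL p s) ^ 4 = - h5 p - 1 := by
  have hn := two_half p hp2
  have hp3 : 3 ≤ p := by have := hp.out.two_le; omega
  have e1 : ∀ s : ZMod p, (LL p s) ^ 4 = ((HH p) ^ 4).eval s := fun s => by
    rw [eval_pow, show (4 : ℕ) = 2 * 2 by norm_num, pow_mul, LL_sq p hp2, ← pow_mul]
  have hd : ((HH p) ^ 4).natDegree ≤ 4 * (p / 2) := natDegree_pow_le_of_le 4 (HH_deg p)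
  rw [Finset.sum_congr rfl fun s _ => e1 s, sum_eval p _ (by omega)]
  have e2 : ((HH p) ^ 4).coeff (2 * (p - 1)) = 1 := by
    rw [← hn, show 2 * (2 * (p / 2)) = 4 * (p / 2) by ring, coeff_pow_of_natDegree_le (HH_deg p),
      HH_top, one_pow]
  rw [e2, h5]

lemma card_Sol5 (hp2 : p ≠ 2) (d : ℤ) (hd : (d : ZMod p) ≠ 0) :
    (Nat.card (Sol5 p d) : ZMod p) = (d : ZMod p) ^ (p / 2) * h5 p := by
  have hn := two_half p hp2
  have hp3 : 3 ≤ p := by have := hp.out.two_le; omega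
  have hn0 : p / 2 ≠ 0 := by omega
  -- step 1
  have h1 : (Nat.card (Sol5 p d) : ZMod p) = (d : ZMod p) ^ (p / 2) * ∑ s : ZMod p, ∑ z : ZMod p,
      (∑ y : ZMod p, (y * (y - z) * (y - s)) ^ (p / 2)) ^ 4 := by
    have e1 : Nat.card (Sol5 p d) = ∑ s : ZMod p, ∑ z : ZMod p, ∑ y : Fin 4 → ZMod p,
        (Finset.univ.filter fun v : ZMod p => (d : ZMod p) * v ^ 2 =
          ∏ i : Fin 4, y i * (y i - z) * (y i - s)).card := by
      classical
      rw [Sol5, Nat.card_eq_fintype_card, Fintype.card_subtype]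
      simp only [Finset.card_filter]
      rw [Fintype.sum_prod_type]
      refine Finset.sum_congr rfl fun x _ => ?_
      rw [Fintype.sum_prod_type]
      refine Finset.sum_congr rfl fun y _ => ?_
      rw [Fintype.sum_prod_type]
    rw [e1]
    push_cast
    simp only [Finset.mul_sum]
    refine Finset.sum_congr rfl fun s _ => Finset.sum_congr rfl fun z _ => ?_
    rw [Finset.sum_congr rfl fun y _ => card_sqrt_twist p hp2 _ _ hd, Finset.sum_add_distrib,
      Fintype.sum_pow, Finset.mul_sum]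
    have e2 : ∑ x : Fin 4 → ZMod p, (1 : ZMod p) = 0 := by
      rw [Finset.sum_const, Finset.card_univ, Fintype.card_fun, ZMod.card, nsmul_eq_mul]
      simp
    rw [e2, zero_add]
    refine Finset.sum_congr rfl fun y _ => ?_
    rw [Finset.prod_pow]
  -- step 2: `z = 0`
  have h2 : ∀ s : ZMod p, (∑ y : ZMod p, (y * (y - 0) * (y - s)) ^ (p / 2)) ^ 4 =
      if s = 0 then 0 else 1 := by
    intro s
    have e1 : ∑ y : ZMod p, (y * (y - 0) * (y - s)) ^ (p / 2) = - (-s) ^ (p / 2) := by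
      have e2 : ∀ y : ZMod p, (y * (y - 0) * (y - s)) ^ (p / 2) =
          (y - s) ^ (p / 2) - if y = 0 then (-s) ^ (p / 2) else 0 := by
        intro y
        split_ifs with hy
        · rw [hy]; simp [zero_pow hn0]
        · have e3 : (y * (y - 0) * (y - s)) ^ (p / 2) = y ^ (2 * (p / 2)) * (y - s) ^ (p / 2) := by
            rw [pow_mul, ← mul_pow]; congr 1; ring
          rw [e3, hn, ZMod.pow_card_sub_one_eq_one hy]; ring
      rw [Finset.sum_congr rfl fun y _ => e2 y, Finset.sum_sub_distrib]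
      have e4 : ∑ y : ZMod p, (y - s) ^ (p / 2) = 0 := by
        have e5 : ∑ y : ZMod p, (y - s) ^ (p / 2) = ∑ y : ZMod p, y ^ (p / 2) :=
          Fintype.sum_equiv (Equiv.subRight s) _ _ fun y => rfl
        rw [e5, sum_pow', if_neg]
        rintro ⟨_, k, hk⟩
        rcases Nat.eq_zero_or_pos k with rfl | hk0
        · omega
        · have : p - 1 ≤ (p - 1) * k := Nat.le_mul_of_pos_right _ hk0
          omega
      rw [e4, zero_sub]
      congr 1
      rw [Finset.sum_ite_eq' Finset.univ (0 : ZMod p) (fun _ => (-s) ^ (p / 2))]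
      simp
    rw [e1]
    split_ifs with hs
    · rw [hs]; simp [zero_pow hn0]
    · have e2 : (-(-s) ^ (p / 2)) ^ 4 = (s ^ (2 * (p / 2))) ^ 2 := by
        have e3 : (-s) ^ (p / 2) = (-1) ^ (p / 2) * s ^ (p / 2) := by rw [← mul_pow]; ring_nf
        have e4 : ((-1 : ZMod p) ^ (p / 2)) ^ 4 = 1 := by
          rw [← pow_mul, mul_comm, pow_mul]; norm_num
        rw [e3]
        linear_combination (s ^ (p / 2)) ^ 4 * e4
      rw [e2, hn, ZMod.pow_card_sub_one_eq_one hs, one_pow]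
  -- step 3: `z ≠ 0`
  have h3 : ∀ z : ZMod p, z ≠ 0 → ∑ s : ZMod p,
      (∑ y : ZMod p, (y * (y - z) * (y - s)) ^ (p / 2)) ^ 4 = ∑ s : ZMod p, (LL p s) ^ 4 := by
    intro z hz
    symm
    refine Fintype.sum_equiv (Equiv.mulLeft₀ z hz) _ _ fun s => ?_
    rw [Equiv.mulLeft₀_apply]
    have e1 : ∑ y : ZMod p, (y * (y - z) * (y - z * s)) ^ (p / 2) =
        ∑ y : ZMod p, (z ^ (p / 2)) ^ 3 * (y * (y - 1) * (y - s)) ^ (p / 2) := by
      symm
      refine Fintype.sum_equiv (Equiv.mulLeft₀ z hz) _ _ fun y => ?_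
      rw [Equiv.mulLeft₀_apply, ← pow_mul, mul_comm (p / 2) 3, pow_mul, ← mul_pow]
      congr 1
      ring
    have e2 : ((z ^ (p / 2)) ^ 3) ^ 4 = 1 := by
      rw [← pow_mul, ← pow_mul, show p / 2 * (3 * 4) = 2 * (p / 2) * 6 by ring, hn, pow_mul,
        ZMod.pow_card_sub_one_eq_one hz, one_pow]
    rw [e1, ← Finset.mul_sum, mul_pow, e2, one_mul, LL]
  have h4 : ∑ s : ZMod p, ∑ z : ZMod p,
      (∑ y : ZMod p, (y * (y - z) * (y - s)) ^ (p / 2)) ^ 4 =
      ∑ z : ZMod p, if z = 0 then (-1 : ZMod p) else (- h5 p - 1) := by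
    rw [Finset.sum_comm]
    refine Finset.sum_congr rfl fun z _ => ?_
    split_ifs with hz
    · subst hz
      rw [Finset.sum_congr rfl fun s _ => h2 s, Finset.sum_ite, Finset.sum_const_zero, zero_add,
        Finset.sum_const, nsmul_eq_mul, Finset.filter_ne', Finset.card_erase_of_mem
        (Finset.mem_univ _), Finset.card_univ, ZMod.card, Nat.cast_sub hp.out.one_le]
      simp
    · rw [h3 z hz, sum_LL4 p hp2]
  rw [h1, h4]
  congr 1
  rw [Finset.sum_ite, Finset.sum_const, Finset.sum_const, nsmul_eq_mul, nsmul_eq_mul,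
    Finset.filter_ne', Finset.card_erase_of_mem (Finset.mem_univ _), Finset.card_univ, ZMod.card,
    Nat.cast_sub hp.out.one_le, Finset.filter_eq']
  simp

/-- the coefficient of index `p - 1` of `(∑_{k<p} binom(2k,k)² X^k)^4` -/
lemma gM_four (hp2 : p ≠ 2) : ((gM p p) ^ 4).coeff (p - 1) = h5 p := by
  have h1 : (gM p p) ^ 4 = ((HH p) ^ 4).comp (C 16 * X) := by rw [gM_eq p hp2, pow_comp]
  rw [h1, comp_C_mul_X_coeff, h5]
  have : (16 : ZMod p) ^ (p - 1) = 1 := by
    rw [← two_half p hp2, mul_comm, pow_mul, sixteen p hp2, one_pow]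
  rw [this, mul_one]

/-- Frobenius structure: a general vanishing lemma -/
lemma coeff_expand_zero (Y : (ZMod p)[X]) (hY : Y.natDegree ≤ 2 * (p - 1))
    (h0 : Y.coeff (p - 1) = 0) (m : ℕ) (hm : 1 ≤ m) :
    (Y * expand (ZMod p) p Y).coeff (p * m - 1) = 0 := by
  rw [coeff_mul]
  refine Finset.sum_eq_zero ?_
  rintro ⟨i, j⟩ hij
  rw [Finset.HasAntidiagonal.mem_antidiagonal] at hij
  simp only at hij ⊢
  rw [coeff_expand hp.out.pos]
  split_ifs with hd
  · obtain ⟨l, rfl⟩ := hd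
    have hp0 := hp.out.pos
    have hlm : l < m := by
      by_contra hlm
      have : p * m ≤ p * l := Nat.mul_le_mul_left _ (by omega)
      have : 1 ≤ p * m := Nat.mul_pos hp0 hm
      omega
    obtain ⟨d, rfl⟩ : ∃ d, m = l + 1 + d := ⟨m - l - 1, by omega⟩
    rcases Nat.eq_zero_or_pos d with rfl | hd
    · have hi : i = p - 1 := by
        rw [add_zero, mul_add, mul_one] at hij
        omega
      rw [hi, h0, zero_mul]
    · have hi : 2 * (p - 1) < i := by
        have : p * (l + 1 + d) = p * l + p + p * d := by ring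
        have : p ≤ p * d := Nat.le_mul_of_pos_right _ hd
        omega
      rw [coeff_eq_zero_of_natDegree_lt (lt_of_le_of_lt hY hi), zero_mul]
  · rw [mul_zero]

lemma gM_four_zero (hp2 : p ≠ 2) (h : h5 p = 0) (m : ℕ) (hm : 1 ≤ m) :
    ((gM p (p * p)) ^ 4).coeff (p * m - 1) = 0 := by
  have e1 : (gM p (p * p)) ^ 4 = (gM p p) ^ 4 * expand (ZMod p) p ((gM p p) ^ 4) := by
    rw [ZMod.expand_card, gM_sq]; ring
  rw [e1]
  refine coeff_expand_zero p _ ?_ ?_ m hm
  · have := natDegree_pow_le_of_le 4 (gM_deg p hp2)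
    have := two_half p hp2
    omega
  · rw [gM_four p hp2, h]

end Field

end H594.CY
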