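import Pool.Agent.Run7.h594.CY.Five

/-!
# The fivefold: deduction from the main theorem
-/

set_option autoImplicit false

namespace H594.CY

open Polynomial H809.OD H594.OD


/-- `p`-divisibility of the coefficients of `B(s) θ s` from the one of the coefficients of `B` -/
theorem dvd_gen (p : ℕ) (hp : p.Prime) (s : PowerSeries ℚ) (hs0 : PowerSeries.X ∣ s)
    (hs : s ∈ IntSer) (BZ : ℤ[X]) (hB : ∀ m, 1 ≤ m → (p : ℤ) ∣ BZ.coeff (p * m - 1))
    (f : PowerSeries ℚ)
    (hf : PowerSeries.X ^ (p * p) ∣ f - aeval s (BZ.map (Int.castRingHom ℚ)) * th s)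
    (a : ℕ → ℤ) (ha : ∀ n, PowerSeries.coeff (R := ℚ) n f = (a n : ℚ)) (n : ℕ) (hn : n < p ^ 2)
    (hpn : p ∣ n) : (p : ℤ) ∣ a n := by
  set B : ℚ[X] := BZ.map (Int.castRingHom ℚ) with hBd
  have hpp : 0 < p * p := Nat.mul_pos hp.pos hp.pos
  have h4 : th (aeval s (prim B)) = aeval s B * th s := by
    rw [Derivation.map_aeval, prim_der, smul_eq_mul]
  have h5 : (a n : ℚ) = n * PowerSeries.coeff (R := ℚ) n (aeval s (prim B)) := by
    rw [← ha n, ← coef_th, h4]
    have h7 := PowerSeries.X_pow_dvd_iff.mp hf n (by rw [sq] at hn; exact hn)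
    rw [map_sub, sub_eq_zero] at h7
    exact h7
  -- `p`-integrality
  have h8 : PIn p (PowerSeries.coeff (R := ℚ) n (aeval s (prim B))) := by
    have e1 : PowerSeries.coeff (R := ℚ) n (aeval s (prim B)) = ∑ j ∈ Finset.range (B.natDegree + 1),
        (B.coeff j / ((j : ℚ) + 1)) * PowerSeries.coeff (R := ℚ) n (s ^ (j + 1)) := by
      rw [prim, map_sum, map_sum]
      refine Finset.sum_congr rfl fun j _ => ?_
      rw [map_mul, map_pow, aeval_C, aeval_X]
      have e2 : algebraMap ℚ (PowerSeries ℚ) (B.coeff j / ((j : ℚ) + 1)) =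
          PowerSeries.C (B.coeff j / ((j : ℚ) + 1)) := rfl
      rw [e2, PowerSeries.coeff_C_mul]
    rw [e1]
    refine PIn_sum hp _ _ fun j _ => ?_
    rcases Nat.lt_or_ge n (j + 1) with hj | hj
    · have : PowerSeries.coeff (R := ℚ) n (s ^ (j + 1)) = 0 :=
        PowerSeries.X_pow_dvd_iff.mp (pow_dvd_pow_of_dvd hs0 (j + 1)) n hj
      rw [this, mul_zero]
      exact PIn_zero hp
    · obtain ⟨c, hc⟩ : ∃ c : ℤ, PowerSeries.coeff (R := ℚ) n (s ^ (j + 1)) = c := by
        obtain ⟨g, hg⟩ := pow_mem hs (j + 1)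
        exact ⟨PowerSeries.coeff n g, by rw [← hg, PowerSeries.coeff_map]; rfl⟩
      have hBj : B.coeff j = (BZ.coeff j : ℚ) := by rw [hBd, coeff_map]; rfl
      have hj0 : ((j : ℚ) + 1) ≠ 0 := by positivity
      rw [hc, hBj]
      by_cases hd : p ∣ j + 1
      · obtain ⟨l, hl⟩ := hd
        have hl1 : 1 ≤ l := by
          rcases Nat.eq_zero_or_pos l with rfl | h0
          · omega
          · exact h0
        have hlp : l < p := by
          have h9 : p * l < p * p := by rw [← hl]; rw [sq] at hn; omega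
          exact Nat.lt_of_mul_lt_mul_left h9
        have h10 := hB l hl1
        rw [← hl, Nat.add_sub_cancel] at h10
        obtain ⟨b, hb⟩ := h10
        refine ⟨l, fun h11 => ?_, b * c, ?_⟩
        · have := Nat.le_of_dvd (by omega) h11
          omega
        · rw [hb]
          have h12 : ((j : ℚ) + 1) = p * l := by exact_mod_cast congrArg (Nat.cast (R := ℚ)) hl
          have hp0 : (p : ℚ) ≠ 0 := by exact_mod_cast hp.ne_zero
          have hl0 : (l : ℚ) ≠ 0 := by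
            have : l ≠ 0 := by omega
            exact_mod_cast this
          rw [h12]
          push_cast
          field_simp
      · refine ⟨j + 1, hd, BZ.coeff j * c, ?_⟩
        push_cast
        field_simp
  obtain ⟨d, hd, z, hz⟩ := h8
  have h9 : (d : ℤ) * a n = n * z := by
    have : (d : ℚ) * (a n : ℚ) = n * z := by rw [h5, ← hz]; ring
    exact_mod_cast this
  have h10 : (p : ℤ) ∣ (d : ℤ) * a n := by
    rw [h9]
    exact Dvd.dvd.mul_right (by exact_mod_cast hpn) _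
  rcases (Nat.prime_iff_prime_int.mp hp).dvd_or_dvd h10 with h11 | h11
  · exact absurd (by exact_mod_cast h11) hd
  · exact h11

/-- `R(u) = u (1 - 4u) (1 - 8u)²`; `w^6 R(u)` is the form `η(2z)^12` of weight `6` and level `4` -/
noncomputable def R5 : ℤ[X] := X * (1 - 4 * X) * (1 - 8 * X) ^ 2

/-- `t = u (1 - 4u)` -/
noncomputable def tt : PowerSeries ℚ := u * (1 - 4 * u)

lemma tt_eq : tt = evt X := by
  rw [evt, X_comp, tp, ev1_apply, tt]
  simp only [map_mul, map_sub, map_one, map_ofNat, aeval_X]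

lemma th_tt (h : Theta) : th tt = w ^ 2 * (tt * (1 - 16 * tt)) := by
  have h1 := DD_evt h (X : ℚ[X])
  rw [derivative_X, mul_one, ← tt_eq, DD] at h1
  have h2 : evt (X * (1 - 16 * X)) = tt * (1 - 16 * tt) := by
    rw [evt_mul, evt_sub, evt_mul, ← tt_eq]
    have e1 : evt (1 : ℚ[X]) = 1 := by rw [evt, one_comp, map_one]
    have e2 : evt (16 : ℚ[X]) = 16 := by
      rw [evt, show (16 : ℚ[X]) = C 16 from rfl, C_comp, ev1_apply, aeval_C]; rfl
    rw [e1, e2]
  have h7 : w ^ 2 * wi ^ 2 = 1 := by rw [← mul_pow, w_mul_wi h, one_pow]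
  rw [← h2, ← h1]
  linear_combination -th tt * h7

lemma form5_eq (h : Theta) : w ^ (4 + 2) * aeval u R5 = w ^ 4 * th tt := by
  rw [th_tt h, R5, tt]
  simp only [map_mul, map_sub, map_one, map_ofNat, aeval_X, map_pow]
  ring

lemma tt_int (h : Theta) : tt ∈ IntSer :=
  mul_mem h.u_int (sub_mem (one_mem _) (mul_mem (ofNat_mem _ 4) h.u_int))

lemma dvd_coeff5 (h : Theta) (p : ℕ) (hp : p.Prime) (hp2 : p ≠ 2)
    (hS : p ∣ Nat.card (Sol5 p 1)) (a : ℕ → ℤ)
    (ha : ∀ n, PowerSeries.coeff (R := ℚ) n (w ^ (4 + 2) * aeval u R5) = (a n : ℚ)) (n : ℕ) (hn : n < p ^ 2)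
    (hpn : p ∣ n) : (p : ℤ) ∣ a n := by
  have : Fact p.Prime := ⟨hp⟩
  have h0 : h5 p = 0 := by
    have h1 := card_Sol5 p hp2 1 (by simp)
    rw [Int.cast_one, one_pow, one_mul] at h1
    rw [← h1]
    exact (ZMod.natCast_eq_zero_iff _ _).mpr hS
  refine dvd_gen p hp tt ?_ (tt_int h) ((gZ (p * p)) ^ 4) ?_ _ ?_ a ha n hn hpn
  · exact Dvd.dvd.mul_right (X_dvd_u h) _
  · intro m hm
    have h1 := gM_four_zero p hp2 h0 m hm
    rw [← gZ_mod, ← Polynomial.map_pow, coeff_map] at h1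
    exact (ZMod.intCast_zmod_eq_zero_iff_dvd _ _).mp h1
  · rw [form5_eq h, ← sub_mul, Polynomial.map_pow, gZ_map, map_pow]
    refine Dvd.dvd.mul_right ?_ _
    have hpp : 0 < p * p := Nat.mul_pos hp.pos hp.pos
    obtain ⟨m, hm⟩ : ∃ m, p * p = m + 1 := ⟨p * p - 1, by omega⟩
    have h2 := w_approx h m
    rw [← hm] at h2
    have h3 : aeval tt (gQ (p * p)) = evt (gQ (p * p)) := by
      rw [evt, ev1_apply, aeval_comp]
      congr 1
      rw [tt, tp]
      simp only [map_mul, map_sub, map_one, map_ofNat, aeval_X]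
    rw [h3]
    exact dvd_trans h2 (sub_dvd_pow_sub_pow _ _ 4)

/-- the form is odd -/
lemma even_zero5 (h : Theta) (a : ℕ → ℤ)
    (ha : ∀ n, PowerSeries.coeff (R := ℚ) n (w ^ (4 + 2) * aeval u R5) = (a n : ℚ)) (n : ℕ) (hn : Even n) :
    a n = 0 := by
  have h1 : ng (w ^ (4 + 2) * aeval u R5) = -(w ^ (4 + 2) * aeval u R5) := by
    rw [R5]
    simp only [map_mul, map_sub, map_one, map_ofNat, aeval_X, map_pow]
    rw [h.ng_w]
    have h2 := si_mul h
    have h3 : ng u = - u * si := by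
      calc ng u = ng u * ((1 - 8 * u) * si) := by rw [h2, mul_one]
        _ = (ng u * (1 - 8 * u)) * si := by ring
        _ = - u * si := by rw [h.ng_u]
    have h4 : (1 - 8 * u) * (1 - 4 * ng u) = 1 - 4 * u := by
      rw [h3]; linear_combination (4 * u) * h2
    have h5 : (1 - 8 * u) * (1 - 8 * ng u) = 1 := by
      rw [h3]; linear_combination (8 * u) * h2
    have h6 := h.ng_u
    calc (w * (1 - 8 * u)) ^ (4 + 2) * (ng u * (1 - 4 * ng u) * (1 - 8 * ng u) ^ 2)
        = w ^ 6 * (1 - 8 * u) ^ 2 * (ng u * (1 - 8 * u)) * ((1 - 8 * u) * (1 - 4 * ng u)) *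
            ((1 - 8 * u) * (1 - 8 * ng u)) ^ 2 := by ring
      _ = _ := by rw [h6, h4, h5]; ring
  have h2 := congrArg (PowerSeries.coeff (R := ℚ) n) h1
  rw [ng, PowerSeries.coeff_rescale, map_neg, ha, hn.neg_one_pow, one_mul] at h2
  have h3 : (a n : ℚ) = 0 := by linarith
  exact_mod_cast h3

lemma R5_ne_zero : R5 ≠ 0 := by
  intro h
  have h1 := congrArg (fun f : Polynomial ℤ => f.eval 1) h
  simp only [R5, Polynomial.eval_mul, Polynomial.eval_sub, Polynomial.eval_X, Polynomial.eval_one,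
    Polynomial.eval_ofNat, Polynomial.eval_zero, Polynomial.eval_pow] at h1
  norm_num at h1

lemma R5_natDegree : R5.natDegree ≤ 4 + 2 := by
  unfold R5
  have : (Polynomial.X * (1 - 4 * Polynomial.X) * (1 - 8 * Polynomial.X) ^ 2 :
      Polynomial ℤ).natDegree ≤ 4 := by
    compute_degree
  omega

open Classical in
theorem cy5_log (h : Theta) (hm : S_Main) : LogDens (fun p : ℕ => ¬ p ∣ Nat.card (Sol5 p 1)) := by
  have hint : w ^ (4 + 2) * Polynomial.aeval u R5 ∈ IntSer := by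
    refine mul_mem (pow_mem h.w_int _) ?_
    rw [R5]
    simp only [map_mul, map_sub, map_one, map_ofNat, Polynomial.aeval_X, map_pow]
    exact mul_mem (mul_mem h.u_int (sub_mem (one_mem _) (mul_mem (ofNat_mem _ 4) h.u_int)))
      (pow_mem (sub_mem (one_mem _) (mul_mem (ofNat_mem _ 8) h.u_int)) 2)
  obtain ⟨g, hg⟩ := hint
  have ha : ∀ n, PowerSeries.coeff n (w ^ (4 + 2) * Polynomial.aeval u R5) =
      ((PowerSeries.coeff n g : ℤ) : ℚ) := by
    intro n
    rw [← hg, PowerSeries.coeff_map]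
    rfl
  have key := hm 4 R5 (fun n => PowerSeries.coeff n g)
    (fun p : ℕ => ¬ p ∣ Nat.card (Sol5 p 1)) (by norm_num) R5_ne_zero R5_natDegree ha
    (fun n hn => even_zero5 h _ ha n hn) ?_
  · obtain ⟨c, hc, x0, h⟩ := key
    refine ⟨c, hc, x0, fun x hx => (h x hx).trans (le_of_eq ?_)⟩
    exact Finset.sum_congr (by ext p; simp only [Finset.mem_filter]) fun _ _ => rfl
  · intro p hp hP n hn hpn
    rw [not_not] at hP
    rcases eq_or_ne p 2 with rfl | hp2
    · have : PowerSeries.coeff n g = 0 :=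
        even_zero5 h (fun n => PowerSeries.coeff n g) ha n (even_iff_two_dvd.mpr hpn)
      show ((2 : ℕ) : ℤ) ∣ PowerSeries.coeff n g
      rw [this]
      exact dvd_zero _
    · exact dvd_coeff5 h p hp hp2 hP _ ha n hn hpn

lemma dvd_iff5 (p : ℕ) (hp : p.Prime) (hp2 : p ≠ 2) (d : ℤ) (hd : ¬ (p : ℤ) ∣ d) :
    p ∣ Nat.card (Sol5 p d) ↔ p ∣ Nat.card (Sol5 p 1) := by
  have : Fact p.Prime := ⟨hp⟩
  have hd' : (d : ZMod p) ≠ 0 := fun h0 => hd ((ZMod.intCast_zmod_eq_zero_iff_dvd _ _).mp h0)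
  rw [← ZMod.natCast_eq_zero_iff, ← ZMod.natCast_eq_zero_iff, card_Sol5 p hp2 d hd',
    card_Sol5 p hp2 1 (by simp)]
  constructor
  · intro h
    rw [(mul_eq_zero.mp h).resolve_left (pow_ne_zero _ hd'), mul_zero]
  · intro h
    rw [Int.cast_one, one_pow, one_mul] at h
    rw [h, mul_zero]

theorem cy5_main (h : Theta) (hm : S_Main) (d : ℤ) (hd : d ≠ 0) :
    0 < Filter.liminf (fun x : ℕ =>
      (Nat.card {p : ℕ // p ≤ x ∧ p.Prime ∧ ¬ p ∣ Nat.card (Sol5 p d)} : ℝ) /
        Nat.card {p : ℕ // p ≤ x ∧ p.Prime}) Filter.atTop := by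
  refine liminf_pos (fun p => ¬ p ∣ Nat.card (Sol5 p d)) (remove_finite
    (fun p => ¬ p ∣ Nat.card (Sol5 p 1)) (fun p => ¬ p ∣ Nat.card (Sol5 p d)) (2 * d.natAbs) ?_ ?_
    (cy5_log h hm))
  · exact mul_ne_zero two_ne_zero (Int.natAbs_ne_zero.mpr hd)
  · intro p hp hpd hP
    have hp2 : p ≠ 2 := fun h0 => hpd (by rw [h0]; exact dvd_mul_right _ _)
    have hd1 : ¬ (p : ℤ) ∣ d := fun h0 => hpd (Dvd.dvd.mul_left (Int.natCast_dvd.mp h0) _)
    rw [dvd_iff5 p hp hp2 d hd1]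
    exact hP

end H594.CY
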