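import Pool.Agent.Run7.h594.CY.FiveFin
import Pool.Agent.Run7.h594.OD.Near
import Pool.Agent.Run7.h600.OD.Theta
import Pool.Agent.Run7.h159.OD.Ric
import Pool.Agent.Run7.h159.OD.Rat
import Pool.Agent.Run7.h709.OD.Ind
import Pool.Agent.Run7.h709.OD.Grow
import Pool.Agent.Run7.h709.OD.Asm
import Pool.Agent.Run7.h809.OD.Zero3
import Pool.Agent.Run7.h809.OD.Den
import Pool.Agent.Run7.h635.OD.Pig

/-!
# The main theorem of the project (all pieces together) and its consequences for the threefold and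
the fivefold
-/

set_option autoImplicit false

namespace H594.CY

open H809.OD

theorem smain : S_Main :=
  Run7.h709.OD.main theta_holds
    (H809.OD.Inst.zero_est (Run7.h709.OD.ind theta_holds Run7.h159.OD.ric)
      Run7.h159.OD.rat)
    (Run7.h635.OD.pig theta_holds (H594.OD.near theta_holds)) (Run7.h709.OD.grow theta_holds)
    (den theta_holds) size

theorem threefold (d : ℤ) (hd : d ≠ 0) :
    0 < Filter.liminf (fun x : ℕ =>
      (Nat.card {p : ℕ // p ≤ x ∧ p.Prime ∧ ¬ p ∣ Nat.card (Sol p d)} : ℝ) /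
        Nat.card {p : ℕ // p ≤ x ∧ p.Prime}) Filter.atTop :=
  cy_main theta_holds smain d hd

theorem fivefold (d : ℤ) (hd : d ≠ 0) :
    0 < Filter.liminf (fun x : ℕ =>
      (Nat.card {p : ℕ // p ≤ x ∧ p.Prime ∧ ¬ p ∣ Nat.card (Sol5 p d)} : ℝ) /
        Nat.card {p : ℕ // p ≤ x ∧ p.Prime}) Filter.atTop :=
  cy5_main theta_holds smain d hd

end H594.CY
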